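import Mathlib

set_option autoImplicit false

namespace Q265.UC

open Matrix Finset

/-- labels of the Pauli matrices -/
inductive Label
  | I | X | Y | Z
  deriving DecidableEq

open Label

instance : Fintype Label := ⟨{I, X, Y, Z}, by intro a; cases a <;> decide⟩

/-- operators on `N` qubits -/
abbrev Op (N : ℕ) := Matrix (Fin N → Fin 2) (Fin N → Fin 2) ℂ

/-- the Pauli matrices -/
def σ : Label → Matrix (Fin 2) (Fin 2) ℂ
  | I => 1
  | X => !![0, 1; 1, 0]
  | Y => !![0, -Complex.I; Complex.I, 0]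
  | Z => !![1, 0; 0, -1]

/-- Pauli strings -/
def pauli {N : ℕ} (w : Fin N → Label) : Op N := fun s t => ∏ j, σ (w j) (s j) (t j)

/-- product of labels -/
def mL : Label → Label → Label
  | I, b => b
  | a, I => a
  | X, X => I
  | X, Y => Z
  | X, Z => Y
  | Y, X => Z
  | Y, Y => I
  | Y, Z => X
  | Z, X => Y
  | Z, Y => X
  | Z, Z => I

/-- exponent of the phase -/
def pL : Label → Label → ℕ
  | X, Y => 1
  | X, Z => 3
  | Y, X => 3
  | Y, Z => 1
  | Z, X => 1
  | Z, Y => 3
  | _, _ => 0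

lemma σ_mul (a b : Label) : σ a * σ b = Complex.I ^ (pL a b) • σ (mL a b) := by
  have h3 : Complex.I ^ 3 = -Complex.I := Complex.I_pow_three
  cases a <;> cases b <;> ext i j <;> fin_cases i <;> fin_cases j <;>
    simp [σ, pL, mL, Matrix.mul_apply, h3]

lemma σ_trace (a : Label) : (σ a).trace = if a = I then 2 else 0 := by
  cases a <;> simp [σ, Matrix.trace, Fin.sum_univ_two]

lemma σ_conj (a : Label) (i j : Fin 2) : star (σ a j i) = σ a i j := by
  cases a <;> fin_cases i <;> fin_cases j <;> simp [σ]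

/-- product of words -/
def mW {N : ℕ} (w w' : Fin N → Label) : Fin N → Label := fun j => mL (w j) (w' j)

/-- exponent of the phase of a product -/
def pW {N : ℕ} (w w' : Fin N → Label) : ℕ := ∑ j, pL (w j) (w' j)

lemma pauli_mul {N : ℕ} (w w' : Fin N → Label) :
    pauli w * pauli w' = Complex.I ^ (pW w w') • pauli (mW w w') := by
  ext s t
  rw [Matrix.mul_apply, Matrix.smul_apply]
  unfold pauli pW mW
  simp_rw [← Finset.prod_mul_distrib]
  have h : ∀ j, ∑ u : Fin 2, σ (w j) (s j) u * σ (w' j) u (t j) =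
      Complex.I ^ (pL (w j) (w' j)) * σ (mL (w j) (w' j)) (s j) (t j) := by
    intro j
    have := congrFun (congrFun (σ_mul (w j) (w' j)) (s j)) (t j)
    rw [Matrix.mul_apply, Matrix.smul_apply, smul_eq_mul] at this
    exact this
  have h2 := (Finset.prod_univ_sum (fun _ : Fin N => (Finset.univ : Finset (Fin 2)))
    (fun j u => σ (w j) (s j) u * σ (w' j) u (t j)))
  rw [Fintype.piFinset_univ] at h2
  rw [← h2, Finset.prod_congr rfl (fun j _ => h j), Finset.prod_mul_distrib,
    Finset.prod_pow_eq_pow_sum, smul_eq_mul]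

lemma pauli_zero {N : ℕ} : pauli (fun _ : Fin N => I) = 1 := by
  ext s t
  unfold pauli
  rw [Matrix.one_apply]
  split_ifs with h
  · subst h
    apply Finset.prod_eq_one
    intro j _
    simp [σ]
  · obtain ⟨j, hj⟩ := Function.ne_iff.1 h
    apply Finset.prod_eq_zero (Finset.mem_univ j)
    simp [σ, hj]

lemma pauli_trace {N : ℕ} (w : Fin N → Label) :
    (pauli w).trace = if w = (fun _ => I) then 2 ^ N else 0 := by
  have h2 := (Finset.prod_univ_sum (fun _ : Fin N => (Finset.univ : Finset (Fin 2)))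
    (fun j u => σ (w j) u u))
  rw [Fintype.piFinset_univ] at h2
  have h3 : (pauli w).trace = ∏ j, (σ (w j)).trace := by
    exact h2.symm
  rw [h3]
  split_ifs with h
  · subst h
    simp [σ_trace]
  · obtain ⟨j, hj⟩ := Function.ne_iff.1 h
    apply Finset.prod_eq_zero (Finset.mem_univ j)
    rw [σ_trace, if_neg hj]

lemma pauli_conj {N : ℕ} (w : Fin N → Label) : (pauli w)ᴴ = pauli w := by
  ext s t
  rw [Matrix.conjTranspose_apply]
  unfold pauli
  rw [star_prod]
  exact Finset.prod_congr rfl fun j _ => σ_conj _ _ _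

lemma mL_self (a : Label) : mL a a = I := by cases a <;> rfl
lemma pL_self (a : Label) : pL a a = 0 := by cases a <;> rfl
lemma mL_comm (a b : Label) : mL a b = mL b a := by cases a <;> cases b <;> rfl
lemma pL_add (a b : Label) : (pL a b + pL b a) % 4 = 0 := by
  cases a <;> cases b <;> rfl
lemma mL_eq_zero {a b : Label} (h : mL a b = I) : a = b := by
  revert h; cases a <;> cases b <;> decide

lemma mW_comm {N : ℕ} (w w' : Fin N → Label) : mW w w' = mW w' w := by
  funext j; exact mL_comm _ _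

lemma pW_add {N : ℕ} (w w' : Fin N → Label) : (pW w w' + pW w' w) % 4 = 0 := by
  unfold pW
  rw [← Finset.sum_add_distrib]
  exact Nat.mod_eq_zero_of_dvd (Finset.dvd_sum fun j _ => Nat.dvd_of_mod_eq_zero (pL_add _ _))

lemma pauli_sq {N : ℕ} (w : Fin N → Label) : pauli w * pauli w = 1 := by
  rw [pauli_mul]
  have h1 : pW w w = 0 := Finset.sum_eq_zero fun j _ => pL_self _
  have h2 : mW w w = fun _ => I := by funext j; exact mL_self _
  rw [h1, h2, pauli_zero]; simp

lemma trace_pauli_mul {N : ℕ} (w w' : Fin N → Label) (h : w ≠ w') :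
    (pauli w * pauli w').trace = 0 := by
  rw [pauli_mul, Matrix.trace_smul, pauli_trace, if_neg, smul_zero]
  intro h2
  apply h
  funext j
  exact mL_eq_zero (congrFun h2 j)

/-- `pauli w ψ = ± ψ` -/
def Eig {N : ℕ} (ψ : (Fin N → Fin 2) → ℂ) (w : Fin N → Label) (b : Bool) : Prop :=
  pauli w *ᵥ ψ = (if b then (-1 : ℂ) else 1) • ψ

lemma I_pow_mod (t : ℕ) : Complex.I ^ t = Complex.I ^ (t % 4) := Complex.I_pow_eq_pow_mod t

lemma eig_mul {N : ℕ} {ψ : (Fin N → Fin 2) → ℂ} (h0 : ψ ≠ 0) {w w' : Fin N → Label} {b b' : Bool}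
    (h : Eig ψ w b) (h' : Eig ψ w' b') :
    pW w w' % 2 = 0 ∧ Eig ψ (mW w w') ((b.xor b').xor (pW w w' % 4 == 2)) := by
  unfold Eig at *
  have e1 : Complex.I ^ (pW w w') • (pauli (mW w w') *ᵥ ψ) =
      (if b then (-1 : ℂ) else 1) • (if b' then (-1 : ℂ) else 1) • ψ := by
    rw [← Matrix.smul_mulVec, ← pauli_mul, ← Matrix.mulVec_mulVec, h', Matrix.mulVec_smul, h,
      smul_comm]
  have e2 : Complex.I ^ (pW w' w) • (pauli (mW w w') *ᵥ ψ) =
      (if b then (-1 : ℂ) else 1) • (if b' then (-1 : ℂ) else 1) • ψ := by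
    rw [mW_comm, ← Matrix.smul_mulVec, ← pauli_mul, ← Matrix.mulVec_mulVec, h, Matrix.mulVec_smul,
      h']
  set v := pauli (mW w w') *ᵥ ψ with hv
  set c : ℂ := (if b then (-1 : ℂ) else 1) * (if b' then (-1 : ℂ) else 1) with hc
  rw [smul_smul, ← hc] at e1 e2
  have hc2 : c * c = 1 := by
    rw [hc]; cases b <;> cases b' <;> norm_num
  have hc0 : c ≠ 0 := by intro h; rw [h] at hc2; norm_num at hc2
  obtain ⟨s, hs⟩ := Function.ne_iff.1 h0
  have f1 := congrFun e1 s
  have f2 := congrFun e2 s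
  simp only [Pi.smul_apply, smul_eq_mul] at f1 f2
  simp only [Pi.zero_apply] at hs
  have hvs : v s ≠ 0 := by
    intro h
    rw [h, mul_zero] at f1
    exact (mul_ne_zero hc0 hs) f1.symm
  have f3 : Complex.I ^ (pW w w') = Complex.I ^ (pW w' w) := by
    have := f1.trans f2.symm
    exact mul_right_cancel₀ hvs this
  have hadd := pW_add w w'
  rw [I_pow_mod (pW w w'), I_pow_mod (pW w' w)] at f3
  rw [I_pow_mod (pW w w')] at e1
  have key : ∀ a b : ℕ, a < 4 → b < 4 → (a + b) % 4 = 0 → Complex.I ^ a = Complex.I ^ b →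
      a = 0 ∨ a = 2 := by
    intro a b ha hb hab h
    interval_cases a <;> interval_cases b <;> simp at hab h ⊢
    · have := congrArg Complex.im h
      simp at this
      norm_num at this
    · have := congrArg Complex.im h
      simp at this
      norm_num at this
  have hk := key (pW w w' % 4) (pW w' w % 4) (Nat.mod_lt _ (by norm_num)) (Nat.mod_lt _ (by norm_num))
    (by omega) f3
  refine ⟨by omega, ?_⟩
  rcases hk with hk | hk
  · rw [hk, pow_zero, one_smul] at e1
    rw [e1, hk, hc]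
    cases b <;> cases b' <;> simp
  · rw [hk, Complex.I_sq] at e1
    have e3 : v = (-c) • ψ := by
      rw [neg_smul, ← e1, neg_smul, one_smul, neg_neg]
    rw [e3, hk, hc]
    cases b <;> cases b' <;> simp

end Q265.UC
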