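import Pool.Agent.Q265.UC.Rho

set_option autoImplicit false

namespace Q265.UC

open Matrix Finset Label

lemma lkD_spec (c : ℕ) (T : List (ℕ × ℤ)) : lkD c T = 0 ∨ (c, lkD c T) ∈ T := by
  induction T with
  | nil => left; rfl
  | cons p t ih =>
    obtain ⟨d, b⟩ := p
    have e : lkD c ((d, b) :: t) = cond (Nat.beq c d) b (lkD c t) := rfl
    rw [e]
    by_cases h : c = d
    · right
      subst h
      simp
    · have hb : Nat.beq c d = false := by
        cases hh : Nat.beq c d
        · rfl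
        · exact absurd (Nat.eq_of_beq_eq_true hh) h
      rw [hb]
      rcases ih with h1 | h1
      · left; simpa using h1
      · right; exact List.mem_cons_of_mem _ h1

lemma TD_eq : LWD.map (fun p => (cod p.1, p.2)) = TD := by decide +kernel

lemma d0_mem (w : W) (h : d0 w ≠ 0) : w ∈ LWD.map Prod.fst := by
  unfold d0 at h
  cases h2 : (KL.any fun k => p6 k w % 2 == 1)
  · rw [h2, cond_false, force_eq] at h
    rcases lkD_spec (cod w) TD with h3 | h3
    · exact absurd h3 h
    · rw [← TD_eq] at h3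
      obtain ⟨p, hp, hpe⟩ := List.mem_map.1 h3
      rw [TD_eq] at hpe
      exact List.mem_map.2 ⟨p, hp, cod_inj (congrArg Prod.fst hpe)⟩
  · rw [h2] at h
    simp at h

lemma d0_val : ∀ p ∈ LWD, d0 p.1 = p.2 := by
  have h : (LWD.all fun p => d0 p.1 == p.2) = true := by decide +kernel
  intro p hp
  rw [List.all_eq_true] at h
  simpa using h p hp

lemma LWD_nodup : (LWD.map Prod.fst).Nodup := by
  have h2 : (TD.map Prod.fst).Nodup := by decide +kernel
  rw [← TD_eq, List.map_map] at h2
  apply List.Nodup.of_map cod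
  rw [List.map_map]
  exact h2

/-- indicator -/
def ind (a b : Label) : ℕ := if a = b then 1 else 0

/-- indicator of a letter different from `I` -/
def nI : Label → ℕ
  | I => 0
  | _ => 1

/-- contribution of a letter to the key -/
def kl : Label → ℕ → ℕ
  | I, _ => 0
  | X, k => k + 64
  | Y, k => k + 512
  | Z, k => k + 4096

/-- the key of a word -/
def kn (w : W) : ℕ :=
  kl (w 0) 1 + kl (w 1) 2 + kl (w 2) 4 + kl (w 3) 8 + kl (w 4) 16 + kl (w 5) 32

lemma kl_eq (a : Label) (k : ℕ) :
    kl a k = nI a * k + 64 * ind a X + 512 * ind a Y + 4096 * ind a Z := by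
  cases a <;> simp [kl, nI, ind]

lemma cnt_eq (w : W) (l : Label) : cnt w l =
    ind (w 0) l + ind (w 1) l + ind (w 2) l + ind (w 3) l + ind (w 4) l + ind (w 5) l := by
  unfold cnt ind
  rw [Finset.card_filter, Fin.sum_univ_six]

lemma nI_le (a : Label) : nI a ≤ 1 := by cases a <;> decide
lemma ind_le (a b : Label) : ind a b ≤ 1 := by unfold ind; split_ifs <;> norm_num
lemma nI_eq {a : Label} : nI a = 1 ↔ a ≠ I := by cases a <;> decide

/-- the mask of a word -/
def msk (w : W) : ℕ :=
  nI (w 0) + nI (w 1) * 2 + nI (w 2) * 4 + nI (w 3) * 8 + nI (w 4) * 16 + nI (w 5) * 32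

lemma msk_lt (w : W) : msk w < 64 := by
  unfold msk
  have h0 := nI_le (w 0)
  have h1 := nI_le (w 1)
  have h2 := nI_le (w 2)
  have h3 := nI_le (w 3)
  have h4 := nI_le (w 4)
  have h5 := nI_le (w 5)
  omega

lemma kn_eq (w : W) : kn w = msk w + 64 * cnt w X + 512 * cnt w Y + 4096 * cnt w Z := by
  unfold kn msk
  rw [cnt_eq, cnt_eq, cnt_eq]
  simp only [kl_eq]
  ring

lemma cnt_le (w : W) (l : Label) : cnt w l ≤ 6 := by
  rw [cnt_eq]
  have h0 := ind_le (w 0) l
  have h1 := ind_le (w 1) l
  have h2 := ind_le (w 2) l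
  have h3 := ind_le (w 3) l
  have h4 := ind_le (w 4) l
  have h5 := ind_le (w 5) l
  omega

lemma msk_supp {w w' : W} : msk w = msk w' ↔ supp w = supp w' := by
  constructor
  · intro h
    unfold msk at h
    have h0 := nI_le (w 0)
    have h1 := nI_le (w 1)
    have h2 := nI_le (w 2)
    have h3 := nI_le (w 3)
    have h4 := nI_le (w 4)
    have h5 := nI_le (w 5)
    have g0 := nI_le (w' 0)
    have g1 := nI_le (w' 1)
    have g2 := nI_le (w' 2)
    have g3 := nI_le (w' 3)
    have g4 := nI_le (w' 4)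
    have g5 := nI_le (w' 5)
    have e : ∀ j : Fin 6, nI (w j) = nI (w' j) := by
      intro j
      fin_cases j
      · show nI (w 0) = nI (w' 0); omega
      · show nI (w 1) = nI (w' 1); omega
      · show nI (w 2) = nI (w' 2); omega
      · show nI (w 3) = nI (w' 3); omega
      · show nI (w 4) = nI (w' 4); omega
      · show nI (w 5) = nI (w' 5); omega
    ext j
    unfold supp
    rw [Finset.mem_filter, Finset.mem_filter, ← nI_eq, ← nI_eq, e j]
  · intro h
    have e : ∀ j : Fin 6, nI (w j) = nI (w' j) := by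
      intro j
      have h1 : j ∈ supp w ↔ j ∈ supp w' := by rw [h]
      unfold supp at h1
      rw [Finset.mem_filter, Finset.mem_filter, ← nI_eq, ← nI_eq] at h1
      have h2 := nI_le (w j)
      have h3 := nI_le (w' j)
      simp only [Finset.mem_univ, true_and] at h1
      by_cases h4 : nI (w j) = 1
      · rw [h4, h1.1 h4]
      · have h5 : nI (w' j) ≠ 1 := fun h6 => h4 (h1.2 h6)
        omega
    unfold msk
    rw [e 0, e 1, e 2, e 3, e 4, e 5]

lemma kn_iff {w w' : W} : kn w = kn w' ↔
    supp w = supp w' ∧ cnt w X = cnt w' X ∧ cnt w Y = cnt w' Y ∧ cnt w Z = cnt w' Z := by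
  rw [← msk_supp, kn_eq, kn_eq]
  have h1 := msk_lt w
  have h2 := msk_lt w'
  have h3 := cnt_le w X
  have h4 := cnt_le w' X
  have h5 := cnt_le w Y
  have h6 := cnt_le w' Y
  constructor
  · intro h
    refine ⟨?_, ?_, ?_, ?_⟩ <;> omega
  · rintro ⟨e1, e2, e3, e4⟩
    rw [e1, e2, e3, e4]

/-- keys and values -/
def LK : List (ℕ × ℤ) :=
  [(4728, -4), (4728, -4), (4728, 8), (4724, 4), (1212, 4), (8380, -8), (4724, 4), (1212, -4), (9276,
    8), (4724, -8), (8380, 8), (9276, -8), (8378, -8), (1210, 8), (4714, -8), (8374, 8), (1198, -4),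
    (4862, -4), (1206, -8), (1198, 4), (12926, -4), (4710, 8), (4862, 4), (12926, 4), (4714, 4),
    (1210, -8), (9274, 4), (4710, -4), (5758, -8), (4862, 4), (1206, 8), (5758, 8), (9262, -8),
    (9270, -4), (4862, -4), (9262, 8), (8378, 8), (4714, 4), (9274, -4), (8374, -8), (5758, 8),
    (8366, 8), (4710, -4), (5758, -8), (12926, 4), (9270, 4), (8366, -8), (12926, -4), (1209, 8),
    (4697, 4), (8377, -4), (1205, -8), (4861, 8), (8349, 8), (4693, -4), (4861, -8), (5757, 4),
    (8373, 4), (8349, -8), (5757, -4), (4859, -4), (1179, -8), (8363, 4), (4855, 4), (4847, -8),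
    (4831, 4), (1175, 8), (4847, 8), (9407, 8), (8359, -4), (4831, -4), (9407, -8), (1195, -8),
    (1179, 8), (12923, 8), (1191, 8), (9407, 4), (4831, -4), (1175, -8), (9407, -4), (5743, -4),
    (12919, -8), (4831, 4), (5743, 4), (4859, 4), (4683, -4), (12923, -8), (4855, -4), (9407, -4),
    (8335, -8), (4679, 4), (9407, 4), (9407, -8), (12919, 8), (8335, 8), (9407, 8), (1209, -8),
    (9273, 8), (4697, -8), (1205, 8), (1181, -4), (12925, -4), (9269, -8), (1181, 4), (5757, -4),
    (4693, 8), (12925, 4), (5757, 4), (4859, 4), (5755, 4), (4683, 8), (4855, -4), (1167, 4), (9407,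
    8), (5751, -4), (1167, -4), (9407, -8), (4679, -8), (9407, -8), (9407, 8), (1195, 8), (5755,
    -4), (9243, -4), (1191, -8), (5727, 8), (9407, -8), (5751, 4), (5727, -8), (5743, 4), (9239, 4),
    (9407, 8), (5743, -4), (4859, -4), (9259, -8), (9243, 4), (4855, 4), (5727, -8), (12911, 4),
    (9255, 8), (5727, 8), (9407, 8), (9239, -4), (12911, -4), (9407, -8), (4697, 4), (9273, -8),
    (8377, 4), (4693, -4), (4861, -8), (12925, 4), (9269, 8), (4861, 8), (9245, -8), (8373, -4),
    (12925, -4), (9245, 8), (8347, 8), (5755, -4), (8363, -4), (8343, -8), (4847, 8), (9407, -8),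
    (5751, 4), (4847, -8), (12895, 4), (8359, 4), (9407, 8), (12895, -4), (4683, -4), (5755, 4),
    (12923, -8), (4679, 4), (9407, -4), (9407, 8), (5751, -4), (9407, 4), (9231, 8), (12919, 8),
    (9407, -8), (9231, -8), (8347, -8), (9259, 8), (12923, 8), (8343, 8), (9407, 4), (12911, -4),
    (9255, -8), (9407, -4), (12895, -4), (12919, -8), (12911, 4), (12895, 4)]

lemma LK_eq : LWD.map (fun p => (kn p.1, p.2)) = LK := by decide +kernel

lemma LK_check : ∀ q ∈ LK, (LK.map fun r => cond (Nat.beq r.1 q.1) r.2 0).sum = 0 := by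
  have h : (LK.all fun q => (LK.map fun r => cond (Nat.beq r.1 q.1) r.2 0).sum == 0) = true := by
    decide +kernel
  intro q hq
  rw [List.all_eq_true] at h
  simpa using h q hq

lemma sum_kn (k : ℕ) : ∑ w ∈ univ.filter (fun w : W => kn w = k), d0 w =
    (LK.map fun r => cond (Nat.beq r.1 k) r.2 0).sum := by
  have h1 : ∑ w ∈ univ.filter (fun w : W => kn w = k), d0 w =
      ∑ w : W, if kn w = k then d0 w else 0 := by
    rw [Finset.sum_filter]
  have h2 : ∑ w : W, (if kn w = k then d0 w else 0) =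
      ∑ w ∈ (LWD.map Prod.fst).toFinset, if kn w = k then d0 w else 0 := by
    symm
    apply Finset.sum_subset (Finset.subset_univ _)
    intro w _ hw
    rw [List.mem_toFinset] at hw
    have : d0 w = 0 := by
      by_contra h
      exact hw (d0_mem w h)
    rw [this]; simp
  rw [h1, h2, List.sum_toFinset _ LWD_nodup, List.map_map, ← LK_eq, List.map_map]
  congr 1
  refine List.map_congr_left fun p hp => ?_
  simp only [Function.comp_apply]
  rw [d0_val p hp]
  by_cases h : kn p.1 = k
  · rw [if_pos h, h]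
    simp
  · rw [if_neg h]
    have hb : Nat.beq (kn p.1) k = false := by
      cases hh : Nat.beq (kn p.1) k
      · rfl
      · exact absurd (Nat.eq_of_beq_eq_true hh) h
    rw [hb]; rfl

/-- the differences cancel in every class -/
lemma class_sum (a b c : ℕ) (J : Finset (Fin 6)) :
    ∑ w ∈ univ.filter (fun w : W =>
      supp w = J ∧ cnt w X = a ∧ cnt w Y = b ∧ cnt w Z = c), d0 w = 0 := by
  by_cases hex : ∃ p ∈ LWD, supp p.1 = J ∧ cnt p.1 X = a ∧ cnt p.1 Y = b ∧ cnt p.1 Z = c
  · obtain ⟨p, hp, rfl, rfl, rfl, rfl⟩ := hex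
    have h1 : (univ.filter (fun w : W =>
        supp w = supp p.1 ∧ cnt w X = cnt p.1 X ∧ cnt w Y = cnt p.1 Y ∧ cnt w Z = cnt p.1 Z)) =
        univ.filter (fun w : W => kn w = kn p.1) := by
      ext w
      rw [Finset.mem_filter, Finset.mem_filter, kn_iff]
    rw [h1, sum_kn]
    have h2 : (kn p.1, p.2) ∈ LK := by
      rw [← LK_eq]; exact List.mem_map.2 ⟨p, hp, rfl⟩
    exact LK_check _ h2
  · push Not at hex
    refine Finset.sum_eq_zero fun w hw => ?_
    by_contra h
    obtain ⟨p, hp, rfl⟩ := List.mem_map.1 (d0_mem w h)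
    obtain ⟨-, h1, h2, h3, h4⟩ := Finset.mem_filter.1 hw
    exact hex p hp h1 h2 h3 h4

/-- two states have the same uniform data -/
def SameData {N : ℕ} (ρ ρ' : Op N) : Prop :=
  ∀ (J : Finset (Fin N)) (a b c : ℕ), J.Nonempty → a + b + c = J.card →
    (ρ * S a b c J).trace = (ρ' * S a b c J).trace

theorem same_data {ρ ρ' : Op 6}
    (h : ∀ w : W, 20 * (ρ' * pauli w).trace = 20 * (ρ * pauli w).trace + (d0 w : ℂ)) :
    SameData ρ' ρ := by
  intro J a b c _ _
  rw [trace_S, trace_S]
  have h1 : ∑ w ∈ univ.filter (fun w : W =>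
      supp w = J ∧ cnt w X = a ∧ cnt w Y = b ∧ cnt w Z = c), 20 * (ρ' * pauli w).trace =
      ∑ w ∈ univ.filter (fun w : W =>
      supp w = J ∧ cnt w X = a ∧ cnt w Y = b ∧ cnt w Z = c), 20 * (ρ * pauli w).trace := by
    rw [Finset.sum_congr rfl (fun w _ => h w), Finset.sum_add_distrib, ← Int.cast_sum, class_sum]
    simp
  rw [← Finset.mul_sum, ← Finset.mul_sum] at h1
  exact mul_left_cancel₀ (by norm_num) h1

end Q265.UC
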