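import Pool.Agent.Q265.UC.Stab

set_option autoImplicit false

namespace Q265.UC

open Matrix Finset Label

/-- words on six qubits -/
abbrev W := Fin 6 → Label

lemma forall_W {P : W → Prop} (h : ∀ a b c d e f : Label, P ![a, b, c, d, e, f]) (w : W) : P w := by
  have : w = ![w 0, w 1, w 2, w 3, w 4, w 5] := by
    funext j; fin_cases j <;> rfl
  rw [this]; exact h _ _ _ _ _ _

/-- check a property of all labels -/
def allL (f : Label → Bool) : Bool := f I && f X && f Y && f Z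

lemma allL_spec {f : Label → Bool} (h : allL f = true) (a : Label) : f a = true := by
  unfold allL at h
  simp only [Bool.and_eq_true] at h
  obtain ⟨⟨⟨h1, h2⟩, h3⟩, h4⟩ := h
  cases a <;> assumption

/-- check a property of all words -/
def allW (f : W → Bool) : Bool :=
  allL fun a => allL fun b => allL fun c => allL fun d => allL fun e => allL fun g =>
    f ![a, b, c, d, e, g]

lemma allW_spec {f : W → Bool} (h : allW f = true) (w : W) : f w = true := by
  refine forall_W (P := fun w => f w = true) ?_ w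
  intro a b c d e g
  exact allL_spec (allL_spec (allL_spec (allL_spec (allL_spec (allL_spec h a) b) c) d) e) g

/-- the phase exponent, computably -/
def p6 (w w' : W) : ℕ :=
  pL (w 0) (w' 0) + pL (w 1) (w' 1) + pL (w 2) (w' 2) + pL (w 3) (w' 3) + pL (w 4) (w' 4) +
    pL (w 5) (w' 5)

lemma pW_eq (w w' : W) : pW w w' = p6 w w' := by
  unfold pW p6
  rw [Fin.sum_univ_six]

/-- number of a label -/
def lab : Label → ℕ
  | I => 0
  | X => 1
  | Y => 2
  | Z => 3

/-- code of a word -/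
def cod (w : W) : ℕ :=
  lab (w 0) + 4 * lab (w 1) + 16 * lab (w 2) + 64 * lab (w 3) + 256 * lab (w 4) + 1024 * lab (w 5)

lemma lab_lt (a : Label) : lab a < 4 := by cases a <;> decide
lemma lab_inj {a b : Label} (h : lab a = lab b) : a = b := by
  revert h; cases a <;> cases b <;> decide

lemma cod_inj {w w' : W} (h : cod w = cod w') : w = w' := by
  unfold cod at h
  have h0 := lab_lt (w 0)
  have h1 := lab_lt (w 1)
  have h2 := lab_lt (w 2)
  have h3 := lab_lt (w 3)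
  have h4 := lab_lt (w 4)
  have h5 := lab_lt (w 5)
  have g0 := lab_lt (w' 0)
  have g1 := lab_lt (w' 1)
  have g2 := lab_lt (w' 2)
  have g3 := lab_lt (w' 3)
  have g4 := lab_lt (w' 4)
  have g5 := lab_lt (w' 5)
  funext j
  apply lab_inj
  fin_cases j
  · show lab (w 0) = lab (w' 0); omega
  · show lab (w 1) = lab (w' 1); omega
  · show lab (w 2) = lab (w' 2); omega
  · show lab (w 3) = lab (w' 3); omega
  · show lab (w 4) = lab (w' 4); omega
  · show lab (w 5) = lab (w' 5); omega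

/-- product of signed words -/
def mS (p q : W × Bool) : W × Bool :=
  (mW p.1 q.1, (p.2.xor q.2).xor (p6 p.1 q.1 % 4 == 2))

/-- the six generators -/
def gens : List (W × Bool) :=
  [(![X, Z, Y, I, I, I], true), (![Z, Y, I, X, I, I], false), (![Z, I, X, I, Y, I], false),
    (![I, Z, I, Y, I, X], true), (![I, I, Y, I, Z, X], true), (![I, I, I, X, Y, Z], false)]

/-- the signed words of the stabilizer -/
def L0 : List (W × Bool) :=
  gens.foldl (fun L g => L ++ L.map (fun p => mS p g)) [(fun _ => I, false)]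

/-- the codes of the signed words of the stabilizer -/
def T0 : List (ℕ × Bool) :=
  [(0, false), (45, true), (75, false), (102, false), (531, false), (574, false), (600, false), (629,
    false), (1164, true), (1185, false), (1223, false), (1258, true), (1695, true), (1714, true),
    (1748, false), (1785, true), (1824, true), (1805, false), (1899, true), (1862, true), (1331,
    false), (1310, true), (1400, false), (1365, true), (940, false), (897, true), (999, true), (970,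
    false), (447, true), (402, false), (500, false), (473, false), (3648, false), (3693, true),
    (3595, false), (3622, false), (3155, false), (3198, false), (3096, false), (3125, false), (2764,
    false), (2785, true), (2695, false), (2730, true), (2271, false), (2290, false), (2196, false),
    (2233, true), (2400, false), (2381, true), (2347, false), (2310, false), (2931, false), (2910,
    true), (2872, false), (2837, true), (3564, true), (3521, false), (3495, true), (3466, false),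
    (4095, true), (4050, false), (4020, true), (3993, true)]

lemma L0_cod : L0.map (fun p => (cod p.1, p.2)) = T0 := by decide +kernel

/-- look up a code -/
def lk (c : ℕ) (T : List (ℕ × Bool)) : ℤ :=
  List.rec (motive := fun _ => ℤ) 0
    (fun p _ ih => cond (Nat.beq c p.1) (cond p.2 (-1) 1) ih) T

lemma lk_nil (c : ℕ) : lk c [] = 0 := rfl
lemma lk_cons (c d : ℕ) (b : Bool) (t : List (ℕ × Bool)) :
    lk c ((d, b) :: t) = cond (Nat.beq c d) (cond b (-1) 1) (lk c t) := rfl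

/-- evaluate the argument first -/
def force {α : Type} (c : ℕ) (f : ℕ → α) : α :=
  match c with
  | 0 => f 0
  | n + 1 => f (n + 1)

lemma force_eq {α : Type} (c : ℕ) (f : ℕ → α) : force c f = f c := by
  cases c <;> rfl

/-- the expectation value of a word -/
def e0 (w : W) : ℤ := force (cod w) fun c => lk c T0

lemma e0_eq (w : W) : e0 w = lk (cod w) T0 := force_eq _ _

lemma lk_spec (c : ℕ) (T : List (ℕ × Bool)) :
    (lk c T = 0 ∧ ∀ b, (c, b) ∉ T) ∨ ∃ b, (c, b) ∈ T ∧ lk c T = if b then -1 else 1 := by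
  induction T with
  | nil => left; simp [lk_nil]
  | cons p t ih =>
    obtain ⟨d, b⟩ := p
    rw [lk_cons]
    by_cases h : c = d
    · right
      subst h
      exact ⟨b, by simp, by cases b <;> simp⟩
    · have hb : Nat.beq c d = false := by
        cases hh : Nat.beq c d
        · rfl
        · exact absurd (Nat.eq_of_beq_eq_true hh) h
      rw [hb]
      rcases ih with ⟨h1, h2⟩ | ⟨b', h1, h2⟩
      · left
        refine ⟨by simpa using h1, fun b' hb' => ?_⟩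
        rcases List.mem_cons.1 hb' with h3 | h3
        · exact h (congrArg Prod.fst h3)
        · exact h2 b' h3
      · right
        exact ⟨b', List.mem_cons_of_mem _ h1, by simpa using h2⟩

/-- all elements of `L0` -/
lemma L0_eig {ψ : (Fin 6 → Fin 2) → ℂ} (h0 : ψ ≠ 0) (hg : ∀ g ∈ gens, Eig ψ g.1 g.2) :
    ∀ p ∈ L0, Eig ψ p.1 p.2 := by
  have key : ∀ (l : List (W × Bool)), (∀ g ∈ l, Eig ψ g.1 g.2) → ∀ L : List (W × Bool),
      (∀ p ∈ L, Eig ψ p.1 p.2) →
      ∀ p ∈ l.foldl (fun L g => L ++ L.map (fun p => mS p g)) L, Eig ψ p.1 p.2 := by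
    intro l
    induction l with
    | nil => intro _ L hL; simpa using hL
    | cons g t ih =>
      intro hl L hL
      rw [List.foldl_cons]
      refine ih (fun g' hg' => hl g' (List.mem_cons_of_mem _ hg')) _ ?_
      intro p hp
      rcases List.mem_append.1 hp with hp | hp
      · exact hL p hp
      · obtain ⟨q, hq, rfl⟩ := List.mem_map.1 hp
        have := (eig_mul h0 (hL q hq) (hl g (List.mem_cons_self ..))).2
        unfold mS
        rw [pW_eq] at this
        exact this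
  refine key gens hg _ ?_
  intro p hp
  rw [List.mem_singleton] at hp
  subst hp
  unfold Eig
  rw [pauli_zero]
  simp

/-- a word that commutes with the generators has a value -/
lemma cent (w : W) (h : ∀ g ∈ gens, p6 g.1 w % 2 = 0) : e0 w ≠ 0 := by
  have h1 : allW (fun w => (gens.any fun g => p6 g.1 w % 2 == 1) || e0 w != 0) = true := by
    decide +kernel
  have h2 := allW_spec h1 w
  rw [Bool.or_eq_true] at h2
  rcases h2 with h2 | h2
  · rw [List.any_eq_true] at h2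
    obtain ⟨g, hg, h3⟩ := h2
    have := h g hg
    simp only [beq_iff_eq] at h3
    omega
  · simpa using h2

lemma e0_spec {ψ : (Fin 6 → Fin 2) → ℂ} (h0 : ψ ≠ 0) (hg : ∀ g ∈ gens, Eig ψ g.1 g.2) (w : W) :
    (e0 w = 0 ∧ ∃ g ∈ gens, pW g.1 w % 2 = 1) ∨ ∃ b, Eig ψ w b ∧ e0 w = if b then -1 else 1 := by
  rcases lk_spec (cod w) T0 with ⟨h1, h2⟩ | ⟨b, h1, h2⟩ <;> rw [← e0_eq] at *
  · left
    refine ⟨h1, ?_⟩
    by_contra hcon
    push Not at hcon
    apply cent w _ h1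
    intro g hgm
    have := hcon g hgm
    rw [pW_eq] at this
    omega
  · right
    refine ⟨b, ?_, h2⟩
    rw [← L0_cod] at h1
    obtain ⟨p, hp, hpe⟩ := List.mem_map.1 h1
    have e1 : p.1 = w := cod_inj (congrArg Prod.fst hpe)
    have e2 : p.2 = b := congrArg Prod.snd hpe
    have := L0_eig h0 hg p hp
    rwa [e1, e2] at this

/-- expectation values -/
lemma ev_e0 {ψ : (Fin 6 → Fin 2) → ℂ} (hn : star ψ ⬝ᵥ ψ = 1) (hg : ∀ g ∈ gens, Eig ψ g.1 g.2)
    (w : W) : (vecMulVec ψ (star ψ) * pauli w).trace = (e0 w : ℂ) := by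
  rcases e0_spec (ne_zero_of_norm hn) hg w with ⟨h1, g, hgm, h2⟩ | ⟨b, h1, h2⟩
  · rw [h1, ev_anti (hg g hgm) h2]; simp
  · rw [ev_eig hn h1, h2]; cases b <;> simp

/-- the words with different expectation values, and twenty times the difference -/
def LWD : List (W × ℤ) :=
  [(![I, I, I, X, Y, Z], -4), (![I, I, I, Y, Z, X], -4), (![I, I, I, Z, X, Y], 8), (![I, I, X, I, Y,
    Z], 4), (![I, I, X, Y, X, Y], 4), (![I, I, X, Z, Z, X], -8), (![I, I, Y, I, Z, X], 4), (![I, I,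
    Y, X, X, Y], -4), (![I, I, Y, Z, Y, Z], 8), (![I, I, Z, I, X, Y], -8), (![I, I, Z, X, Z, X], 8),
    (![I, I, Z, Y, Y, Z], -8), (![I, X, I, X, Z, Z], -8), (![I, X, I, Y, Y, X], 8), (![I, X, I, Z,
    I, Y], -8), (![I, X, X, I, Z, Z], 8), (![I, X, X, Y, I, Y], -4), (![I, X, X, Z, Y, X], -4),
    (![I, X, Y, I, Y, X], -8), (![I, X, Y, X, I, Y], 4), (![I, X, Y, Z, Z, Z], -4), (![I, X, Z, I,
    I, Y], 8), (![I, X, Z, X, Y, X], 4), (![I, X, Z, Y, Z, Z], 4), (![I, Y, I, X, I, Z], 4), (![I,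
    Y, I, Y, X, X], -8), (![I, Y, I, Z, Z, Y], 4), (![I, Y, X, I, I, Z], -4), (![I, Y, X, Y, Z, Y],
    -8), (![I, Y, X, Z, X, X], 4), (![I, Y, Y, I, X, X], 8), (![I, Y, Y, X, Z, Y], 8), (![I, Y, Y,
    Z, I, Z], -8), (![I, Y, Z, I, Z, Y], -4), (![I, Y, Z, X, X, X], -4), (![I, Y, Z, Y, I, Z], 8),
    (![I, Z, I, X, X, Z], 8), (![I, Z, I, Y, I, X], 4), (![I, Z, I, Z, Y, Y], -4), (![I, Z, X, I, X,
    Z], -8), (![I, Z, X, Y, Y, Y], 8), (![I, Z, X, Z, I, X], 8), (![I, Z, Y, I, I, X], -4), (![I, Z,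
    Y, X, Y, Y], -8), (![I, Z, Y, Z, X, Z], 4), (![I, Z, Z, I, Y, Y], 4), (![I, Z, Z, X, I, X], -8),
    (![I, Z, Z, Y, X, Z], -4), (![X, I, I, X, Y, Y], 8), (![X, I, I, Y, Z, I], 4), (![X, I, I, Z, X,
    Z], -4), (![X, I, X, I, Y, Y], -8), (![X, I, X, Y, X, Z], 8), (![X, I, X, Z, Z, I], 8), (![X, I,
    Y, I, Z, I], -4), (![X, I, Y, X, X, Z], -8), (![X, I, Y, Z, Y, Y], 4), (![X, I, Z, I, X, Z], 4),
    (![X, I, Z, X, Z, I], -8), (![X, I, Z, Y, Y, Y], -4), (![X, X, I, X, Z, Y], -4), (![X, X, I, Y,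
    Y, I], -8), (![X, X, I, Z, I, Z], 4), (![X, X, X, I, Z, Y], 4), (![X, X, X, Y, I, Z], -8), (![X,
    X, X, Z, Y, I], 4), (![X, X, Y, I, Y, I], 8), (![X, X, Y, X, I, Z], 8), (![X, X, Y, Z, Z, Y],
    8), (![X, X, Z, I, I, Z], -4), (![X, X, Z, X, Y, I], -4), (![X, X, Z, Y, Z, Y], -8), (![X, Y, I,
    X, I, Y], -8), (![X, Y, I, Y, X, I], 8), (![X, Y, I, Z, Z, Z], 8), (![X, Y, X, I, I, Y], 8),
    (![X, Y, X, Y, Z, Z], 4), (![X, Y, X, Z, X, I], -4), (![X, Y, Y, I, X, I], -8), (![X, Y, Y, X,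
    Z, Z], -4), (![X, Y, Y, Z, I, Y], -4), (![X, Y, Z, I, Z, Z], -8), (![X, Y, Z, X, X, I], 4),
    (![X, Y, Z, Y, I, Y], 4), (![X, Z, I, X, X, Y], 4), (![X, Z, I, Y, I, I], -4), (![X, Z, I, Z, Y,
    Z], -8), (![X, Z, X, I, X, Y], -4), (![X, Z, X, Y, Y, Z], -4), (![X, Z, X, Z, I, I], -8), (![X,
    Z, Y, I, I, I], 4), (![X, Z, Y, X, Y, Z], 4), (![X, Z, Y, Z, X, Y], -8), (![X, Z, Z, I, Y, Z],
    8), (![X, Z, Z, X, I, I], 8), (![X, Z, Z, Y, X, Y], 8), (![Y, I, I, X, Y, X], -8), (![Y, I, I,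
    Y, Z, Z], 8), (![Y, I, I, Z, X, I], -8), (![Y, I, X, I, Y, X], 8), (![Y, I, X, Y, X, I], -4),
    (![Y, I, X, Z, Z, Z], -4), (![Y, I, Y, I, Z, Z], -8), (![Y, I, Y, X, X, I], 4), (![Y, I, Y, Z,
    Y, X], -4), (![Y, I, Z, I, X, I], 8), (![Y, I, Z, X, Z, Z], 4), (![Y, I, Z, Y, Y, X], 4), (![Y,
    X, I, X, Z, X], 4), (![Y, X, I, Y, Y, Z], 4), (![Y, X, I, Z, I, I], 8), (![Y, X, X, I, Z, X],
    -4), (![Y, X, X, Y, I, I], 4), (![Y, X, X, Z, Y, Z], 8), (![Y, X, Y, I, Y, Z], -4), (![Y, X, Y,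
    X, I, I], -4), (![Y, X, Y, Z, Z, X], -8), (![Y, X, Z, I, I, I], -8), (![Y, X, Z, X, Y, Z], -8),
    (![Y, X, Z, Y, Z, X], 8), (![Y, Y, I, X, I, X], 8), (![Y, Y, I, Y, X, Z], -4), (![Y, Y, I, Z, Z,
    I], -4), (![Y, Y, X, I, I, X], -8), (![Y, Y, X, Y, Z, I], 8), (![Y, Y, X, Z, X, Z], -8), (![Y,
    Y, Y, I, X, Z], 4), (![Y, Y, Y, X, Z, I], -8), (![Y, Y, Y, Z, I, X], 4), (![Y, Y, Z, I, Z, I],
    4), (![Y, Y, Z, X, X, Z], 8), (![Y, Y, Z, Y, I, X], -4), (![Y, Z, I, X, X, X], -4), (![Y, Z, I,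
    Y, I, Z], -8), (![Y, Z, I, Z, Y, I], 4), (![Y, Z, X, I, X, X], 4), (![Y, Z, X, Y, Y, I], -8),
    (![Y, Z, X, Z, I, Z], 4), (![Y, Z, Y, I, I, Z], 8), (![Y, Z, Y, X, Y, I], 8), (![Y, Z, Y, Z, X,
    X], 8), (![Y, Z, Z, I, Y, I], -4), (![Y, Z, Z, X, I, Z], -4), (![Y, Z, Z, Y, X, X], -8), (![Z,
    I, I, X, Y, I], 4), (![Z, I, I, Y, Z, Y], -8), (![Z, I, I, Z, X, X], 4), (![Z, I, X, I, Y, I],
    -4), (![Z, I, X, Y, X, X], -8), (![Z, I, X, Z, Z, Y], 4), (![Z, I, Y, I, Z, Y], 8), (![Z, I, Y,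
    X, X, X], 8), (![Z, I, Y, Z, Y, I], -8), (![Z, I, Z, I, X, X], -4), (![Z, I, Z, X, Z, Y], -4),
    (![Z, I, Z, Y, Y, I], 8), (![Z, X, I, X, Z, I], 8), (![Z, X, I, Y, Y, Y], -4), (![Z, X, I, Z, I,
    X], -4), (![Z, X, X, I, Z, I], -8), (![Z, X, X, Y, I, X], 8), (![Z, X, X, Z, Y, Y], -8), (![Z,
    X, Y, I, Y, Y], 4), (![Z, X, Y, X, I, X], -8), (![Z, X, Y, Z, Z, I], 4), (![Z, X, Z, I, I, X],
    4), (![Z, X, Z, X, Y, Y], 8), (![Z, X, Z, Y, Z, I], -4), (![Z, Y, I, X, I, I], -4), (![Z, Y, I,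
    Y, X, Y], 4), (![Z, Y, I, Z, Z, X], -8), (![Z, Y, X, I, I, I], 4), (![Z, Y, X, Y, Z, X], -4),
    (![Z, Y, X, Z, X, Y], 8), (![Z, Y, Y, I, X, Y], -4), (![Z, Y, Y, X, Z, X], 4), (![Z, Y, Y, Z, I,
    I], 8), (![Z, Y, Z, I, Z, X], 8), (![Z, Y, Z, X, X, Y], -8), (![Z, Y, Z, Y, I, I], -8), (![Z, Z,
    I, X, X, I], -8), (![Z, Z, I, Y, I, Y], 8), (![Z, Z, I, Z, Y, X], 8), (![Z, Z, X, I, X, I], 8),
    (![Z, Z, X, Y, Y, X], 4), (![Z, Z, X, Z, I, Y], -4), (![Z, Z, Y, I, I, Y], -8), (![Z, Z, Y, X,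
    Y, X], -4), (![Z, Z, Y, Z, X, I], -4), (![Z, Z, Z, I, Y, X], -8), (![Z, Z, Z, X, I, Y], 4),
    (![Z, Z, Z, Y, X, I], 4)]

end Q265.UC
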