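import Pool.Agent.Q265.UC.Cls

set_option autoImplicit false

namespace Q265.UC

open Matrix Finset Label

lemma cnt_sum (w : W) : cnt w X + cnt w Y + cnt w Z = (supp w).card := by
  have h : (supp w).card = nI (w 0) + nI (w 1) + nI (w 2) + nI (w 3) + nI (w 4) + nI (w 5) := by
    unfold supp
    rw [Finset.card_filter, Fin.sum_univ_six]
    have : ∀ a : Label, (if a ≠ I then 1 else 0) = nI a := by intro a; cases a <;> rfl
    simp only [this]
  have h2 : ∀ a : Label, ind a X + ind a Y + ind a Z = nI a := by intro a; cases a <;> rfl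
  rw [h, cnt_eq, cnt_eq, cnt_eq, ← h2 (w 0), ← h2 (w 1), ← h2 (w 2), ← h2 (w 3), ← h2 (w 4),
    ← h2 (w 5)]
  ring

/-- the sums over a class agree -/
lemma class_eq {ρ ρ' : Op 6} (h : SameData ρ' ρ) (w₀ : W) (h0 : (supp w₀).Nonempty) :
    ∑ w ∈ univ.filter (fun w : W => kn w = kn w₀), (ρ' * pauli w).trace =
    ∑ w ∈ univ.filter (fun w : W => kn w = kn w₀), (ρ * pauli w).trace := by
  have h1 := h (supp w₀) (cnt w₀ X) (cnt w₀ Y) (cnt w₀ Z) h0 (cnt_sum w₀)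
  rw [trace_S, trace_S] at h1
  have h2 : (univ.filter (fun w : W =>
        supp w = supp w₀ ∧ cnt w X = cnt w₀ X ∧ cnt w Y = cnt w₀ Y ∧ cnt w Z = cnt w₀ Z)) =
        univ.filter (fun w : W => kn w = kn w₀) := by
      ext w
      rw [Finset.mem_filter, Finset.mem_filter, kn_iff]
  rwa [h2] at h1

/-- the key from the labels -/
def kn6 (a b c d e g : Label) : ℕ := kl a 1 + kl b 2 + kl c 4 + kl d 8 + kl e 16 + kl g 32

/-- the code from the labels -/
def cod6 (a b c d e g : Label) : ℕ :=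
  lab a + 4 * lab b + 16 * lab c + 64 * lab d + 256 * lab e + 1024 * lab g

/-- all words with key `k` have their codes in a list -/
def cls6 (k : ℕ) (l : List ℕ) : Bool :=
  allL fun a => allL fun b => allL fun c => allL fun d => allL fun e => allL fun g =>
    cond (Nat.beq (kn6 a b c d e g) k) (l.any fun x => Nat.beq x (cod6 a b c d e g)) true

lemma cls6_spec {k : ℕ} {l : List ℕ} (h : cls6 k l = true) (w : W) (hw : kn w = k) :
    cod w ∈ l := by
  have h1 := allL_spec (allL_spec (allL_spec (allL_spec (allL_spec (allL_spec h (w 0)) (w 1))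
    (w 2)) (w 3)) (w 4)) (w 5)
  have e1 : kn6 (w 0) (w 1) (w 2) (w 3) (w 4) (w 5) = kn w := rfl
  have e2 : cod6 (w 0) (w 1) (w 2) (w 3) (w 4) (w 5) = cod w := rfl
  rw [e1, e2, hw] at h1
  have e3 : Nat.beq k k = true := by simp
  rw [e3, cond_true, List.any_eq_true] at h1
  obtain ⟨x, hx, h2⟩ := h1
  rw [← Nat.eq_of_beq_eq_true h2]
  exact hx

/-- the list of the words of a class -/
structure IsClass (k : ℕ) (ws : List W) : Prop where
  nodup : ws.Nodup
  mem : ∀ w, kn w = k ↔ w ∈ ws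

lemma isClass_of {k : ℕ} {ws : List W} (l : List ℕ) (h1 : ws.map cod = l) (h2 : l.Nodup)
    (h3 : cls6 k l = true) (h4 : (ws.all fun w => Nat.beq (kn w) k) = true) : IsClass k ws := by
  refine ⟨?_, fun w => ⟨fun hw => ?_, fun hw => ?_⟩⟩
  · rw [← h1] at h2
    exact h2.of_map _
  · have := cls6_spec h3 w hw
    rw [← h1] at this
    obtain ⟨w', hw', he⟩ := List.mem_map.1 this
    rwa [← cod_inj he]
  · rw [List.all_eq_true] at h4
    exact Nat.eq_of_beq_eq_true (h4 w hw)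

lemma class_list {k : ℕ} {ws : List W} (h : IsClass k ws) (f : W → ℂ) :
    ∑ w ∈ univ.filter (fun w : W => kn w = k), f w = (ws.map f).sum := by
  rw [← List.sum_toFinset _ h.nodup]
  congr 1
  ext w
  rw [Finset.mem_filter, List.mem_toFinset, h.mem w]
  simp

/-- letters on the faces -/
abbrev T := Label × Label × Label

/-- the permutations of the letters -/
def PL : List T := [(X, Y, Z), (X, Z, Y), (Y, X, Z), (Y, Z, X), (Z, X, Y), (Z, Y, X)]

/-- words on the faces -/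
def fw : ℕ → T → W
  | 0, (p, q, r) => ![p, q, r, I, I, I]
  | 1, (p, q, r) => ![p, q, I, r, I, I]
  | 2, (p, q, r) => ![p, I, r, I, q, I]
  | 3, (p, q, r) => ![p, I, I, r, q, I]
  | 4, (p, q, r) => ![I, q, r, I, I, p]
  | 5, (p, q, r) => ![I, q, I, r, I, p]
  | 6, (p, q, r) => ![I, I, r, I, q, p]
  | 7, (p, q, r) => ![I, I, I, r, q, p]
  | _, _ => ![I, I, I, I, I, I]

/-- signs of the faces -/
def fs : ℕ → Bool
  | 0 => true
  | 1 => false
  | 2 => false
  | 3 => true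
  | 4 => false
  | 5 => true
  | 6 => true
  | 7 => false
  | _ => false

/-- pure words that are not full and different from one -/
def pz (w : W) : Bool :=
  ((decide (w 0 = I ∨ w 0 = X) && decide (w 1 = I ∨ w 1 = X) && decide (w 2 = I ∨ w 2 = X) &&
      decide (w 3 = I ∨ w 3 = X) && decide (w 4 = I ∨ w 4 = X) && decide (w 5 = I ∨ w 5 = X)) ||
    (decide (w 0 = I ∨ w 0 = Y) && decide (w 1 = I ∨ w 1 = Y) && decide (w 2 = I ∨ w 2 = Y) &&
      decide (w 3 = I ∨ w 3 = Y) && decide (w 4 = I ∨ w 4 = Y) && decide (w 5 = I ∨ w 5 = Y)) ||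
    (decide (w 0 = I ∨ w 0 = Z) && decide (w 1 = I ∨ w 1 = Z) && decide (w 2 = I ∨ w 2 = Z) &&
      decide (w 3 = I ∨ w 3 = Z) && decide (w 4 = I ∨ w 4 = Z) && decide (w 5 = I ∨ w 5 = Z))) &&
  (cod w != 0) && (e0 w == 0)

lemma pz_spec {w : W} (h : pz w = true) :
    (∃ a : Label, a ≠ I ∧ ∀ j, w j = I ∨ w j = a) ∧ cod w ≠ 0 ∧ e0 w = 0 := by
  unfold pz at h
  simp only [Bool.and_eq_true, Bool.or_eq_true, decide_eq_true_eq, bne_iff_ne, ne_eq,
    beq_iff_eq] at h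
  obtain ⟨⟨h1, h2⟩, h3⟩ := h
  refine ⟨?_, h2, h3⟩
  rcases h1 with (h1 | h1) | h1
  · refine ⟨X, by decide, fun j => ?_⟩
    obtain ⟨⟨⟨⟨⟨g0, g1⟩, g2⟩, g3⟩, g4⟩, g5⟩ := h1
    fin_cases j <;> assumption
  · refine ⟨Y, by decide, fun j => ?_⟩
    obtain ⟨⟨⟨⟨⟨g0, g1⟩, g2⟩, g3⟩, g4⟩, g5⟩ := h1
    fin_cases j <;> assumption
  · refine ⟨Z, by decide, fun j => ?_⟩
    obtain ⟨⟨⟨⟨⟨g0, g1⟩, g2⟩, g3⟩, g4⟩, g5⟩ := h1
    fin_cases j <;> assumption

lemma cnt_zero {w : W} {l : Label} : cnt w l = 0 ↔ ∀ j, w j ≠ l := by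
  unfold cnt
  rw [Finset.card_eq_zero, Finset.filter_eq_empty_iff]
  simp

lemma pure_class {w : W} {a : Label} (ha : a ≠ I) (hw : ∀ j, w j = I ∨ w j = a) :
    IsClass (kn w) [w] := by
  refine ⟨List.nodup_singleton _, fun w' => ?_⟩
  rw [List.mem_singleton]
  constructor
  · intro h
    obtain ⟨h1, h2, h3, h4⟩ := kn_iff.1 h
    have hz : ∀ l : Label, l ≠ I → l ≠ a → cnt w l = 0 := by
      intro l hl hla
      rw [cnt_zero]
      intro j hj
      rcases hw j with h | h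
      · exact hl (hj.symm.trans h)
      · exact hla (hj.symm.trans h)
    have hz' : ∀ l : Label, l ≠ I → l ≠ a → ∀ j, w' j ≠ l := by
      intro l hl hla
      rw [← cnt_zero]
      have := hz l hl hla
      cases l
      · exact absurd rfl hl
      · rw [h2, this]
      · rw [h3, this]
      · rw [h4, this]
    funext j
    have hj : w' j ≠ I ↔ w j ≠ I := by
      have : j ∈ supp w' ↔ j ∈ supp w := by rw [h1]
      unfold supp at this
      simpa using this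
    rcases hw j with h | h
    · rw [h]
      by_contra hne
      exact (hj.1 hne) h
    · rw [h]
      by_contra hne
      have h5 : w' j ≠ I := hj.2 (by rw [h]; exact ha)
      exact hz' (w' j) h5 hne j rfl
  · rintro rfl; rfl

lemma supp_nonempty {w : W} (h : cod w ≠ 0) : (supp w).Nonempty := by
  by_contra hne
  rw [Finset.not_nonempty_iff_eq_empty] at hne
  apply h
  have h1 : ∀ j, w j = I := by
    intro j
    by_contra hj
    have : j ∈ supp w := by unfold supp; simpa using hj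
    rw [hne] at this
    simp at this
  have : w = fun _ => I := funext h1
  rw [this]; rfl

/-- two words that cannot both be in the stabilizer -/
def bad (u v : W) : Bool := (p6 u v % 2 == 1) || pz (mW u v)

/-- all words of a list anticommute with a known word -/
def kill (ws us : List W) : Bool := ws.all fun w => us.any fun u => p6 u w % 2 == 1

/-- first class -/
def C1 : List W :=
  [![X, X, Y, Y, I, I], ![X, Y, X, Y, I, I], ![X, Y, Y, X, I, I], ![Y, X, X, Y, I, I], ![Y, X, Y, X,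
    I, I], ![Y, Y, X, X, I, I]]

/-- second class -/
def C2 : List W :=
  [![Y, Y, Z, I, Z, I], ![Y, Z, Y, I, Z, I], ![Y, Z, Z, I, Y, I], ![Z, Y, Y, I, Z, I], ![Z, Y, Z, I,
    Y, I], ![Z, Z, Y, I, Y, I]]

/-- third class -/
def C3 : List W :=
  [![X, Y, Z, Z, Z, I], ![X, Z, Y, Z, Z, I], ![X, Z, Z, Y, Z, I], ![X, Z, Z, Z, Y, I], ![Y, X, Z, Z,
    Z, I], ![Y, Z, X, Z, Z, I], ![Y, Z, Z, X, Z, I], ![Y, Z, Z, Z, X, I], ![Z, X, Y, Z, Z, I], ![Z,
    X, Z, Y, Z, I], ![Z, X, Z, Z, Y, I], ![Z, Y, X, Z, Z, I], ![Z, Y, Z, X, Z, I], ![Z, Y, Z, Z, X,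
    I], ![Z, Z, X, Y, Z, I], ![Z, Z, X, Z, Y, I], ![Z, Z, Y, X, Z, I], ![Z, Z, Y, Z, X, I], ![Z, Z,
    Z, X, Y, I], ![Z, Z, Z, Y, X, I]]

/-- equality of letters -/
def eqT (t t' : T) : Bool := decide (t.1 = t'.1) && decide (t.2.1 = t'.2.1) && decide (t.2.2 = t'.2.2)

lemma eqT_spec {t t' : T} (h : eqT t t' = true) : t = t' := by
  unfold eqT at h
  simp only [Bool.and_eq_true, decide_eq_true_eq] at h
  obtain ⟨⟨h1, h2⟩, h3⟩ := h
  exact Prod.ext h1 (Prod.ext h2 h3)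

/-- the four possible conclusions -/
def concl (t0 t1 t2 t3 t4 t5 t6 t7 : T) : Bool :=
  (eqT t0 (X, Z, Y) && eqT t1 (Z, Y, X) && eqT t2 (Z, Y, X) && eqT t5 (X, Z, Y) &&
    eqT t6 (X, Z, Y) && eqT t7 (Z, Y, X)) ||
  (eqT t0 (Z, Y, X) && eqT t1 (X, Z, Y) && eqT t2 (X, Z, Y) && eqT t3 (Z, Y, X) &&
    eqT t4 (X, Z, Y) && eqT t5 (Z, Y, X) && eqT t6 (Z, Y, X) && eqT t7 (X, Z, Y)) ||
  kill C1 [fw 0 t0, fw 1 t1, fw 2 t2, fw 3 t3, fw 4 t4, fw 5 t5, fw 6 t6, fw 7 t7] ||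
  kill C2 [fw 0 t0, fw 1 t1, fw 2 t2, fw 3 t3, fw 4 t4, fw 5 t5, fw 6 t6, fw 7 t7]

/-- the search over the letters of the faces -/
def elim : Bool :=
  (PL.all fun t0 => 
    (PL.all fun t1 => bad (fw 0 t0) (fw 1 t1) ||
    (PL.all fun t2 => bad (fw 0 t0) (fw 2 t2) || bad (fw 1 t1) (fw 2 t2) ||
    (PL.all fun t3 => bad (fw 0 t0) (fw 3 t3) || bad (fw 1 t1) (fw 3 t3) || bad (fw 2 t2) (fw 3 t3) ||
    (PL.all fun t4 => bad (fw 0 t0) (fw 4 t4) || bad (fw 1 t1) (fw 4 t4) || bad (fw 2 t2) (fw 4 t4) || bad (fw 3 t3) (fw 4 t4) ||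
    (PL.all fun t5 => bad (fw 0 t0) (fw 5 t5) || bad (fw 1 t1) (fw 5 t5) || bad (fw 2 t2) (fw 5 t5) || bad (fw 3 t3) (fw 5 t5) || bad (fw 4 t4) (fw 5 t5) ||
    (PL.all fun t6 => bad (fw 0 t0) (fw 6 t6) || bad (fw 1 t1) (fw 6 t6) || bad (fw 2 t2) (fw 6 t6) || bad (fw 3 t3) (fw 6 t6) || bad (fw 4 t4) (fw 6 t6) || bad (fw 5 t5) (fw 6 t6) ||
    (PL.all fun t7 => bad (fw 0 t0) (fw 7 t7) || bad (fw 1 t1) (fw 7 t7) || bad (fw 2 t2) (fw 7 t7) || bad (fw 3 t3) (fw 7 t7) || bad (fw 4 t4) (fw 7 t7) || bad (fw 5 t5) (fw 7 t7) || bad (fw 6 t6) (fw 7 t7) ||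
    concl t0 t1 t2 t3 t4 t5 t6 t7))))))))

lemma elim_true : elim = true := by decide +kernel

end Q265.UC
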