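import Pool.Agent.Q265.UC.Data

set_option autoImplicit false

namespace Q265.UC

open Matrix Finset Label

/-- the sign -/
def sgn (b : Bool) : ℂ := if b then -1 else 1

lemma sgn_sq (b : Bool) : sgn b * sgn b = 1 := by cases b <;> simp [sgn]

/-- the operator of a signed word -/
noncomputable def op (p : W × Bool) : Op 6 := sgn p.2 • pauli p.1

lemma op_mul (p q : W × Bool) (h : p6 p.1 q.1 % 2 = 0) : op p * op q = op (mS p q) := by
  unfold op mS
  rw [Matrix.smul_mul, Matrix.mul_smul, smul_smul, pauli_mul, smul_smul, pW_eq, I_pow_mod]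
  congr 1
  have h1 : p6 p.1 q.1 % 4 = 0 ∨ p6 p.1 q.1 % 4 = 2 := by omega
  rcases h1 with h1 | h1
  · rw [h1, pow_zero, mul_one]
    cases p.2 <;> cases q.2 <;> simp [sgn]
  · rw [h1, Complex.I_sq]
    cases p.2 <;> cases q.2 <;> simp [sgn]

/-- code of a signed word -/
def cS (p : W × Bool) : ℕ × Bool := (cod p.1, p.2)

lemma cS_inj : Function.Injective cS := by
  rintro ⟨w, b⟩ ⟨w', b'⟩ h
  unfold cS at h
  have h1 := cod_inj (congrArg Prod.fst h)
  have h2 : b = b' := congrArg Prod.snd h
  rw [show w = w' from h1, h2]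

lemma gens_even : ∀ g ∈ gens, ∀ p ∈ L0, p6 g.1 p.1 % 2 = 0 := by
  have h : (gens.all fun g => L0.all fun p => p6 g.1 p.1 % 2 == 0) = true := by decide +kernel
  intro g hg p hp
  rw [List.all_eq_true] at h
  have h1 := h g hg
  rw [List.all_eq_true] at h1
  simpa using h1 p hp

lemma gens_perm : ∀ g ∈ gens, (L0.map fun p => mS g p).Perm L0 := by
  have h : (gens.all fun g => decide (((L0.map fun p => cS (mS g p))).Perm T0)) = true := by
    decide +kernel
  intro g hg
  rw [List.all_eq_true] at h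
  have h1 := of_decide_eq_true (h g hg)
  rw [← L0_cod] at h1
  have h2 : ((L0.map fun p => mS g p).map cS).Perm (L0.map cS) := by
    rw [List.map_map]; exact h1
  exact (List.map_perm_map_iff cS_inj).1 h2

/-- sixty-four times the projector -/
noncomputable def Q : Op 6 := (L0.map op).sum

lemma gens_mul_Q (g : W × Bool) (hg : g ∈ gens) : op g * Q = Q := by
  unfold Q
  rw [← List.sum_map_mul_left]
  have h1 : (L0.map fun p => op g * op p) = (L0.map fun p => mS g p).map op := by
    rw [List.map_map]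
    refine List.map_congr_left fun p hp => ?_
    exact op_mul _ _ (gens_even g hg p hp)
  rw [h1]
  exact ((gens_perm g hg).map op).sum_eq

lemma trace_Q : Q.trace = 64 := by
  have h1 : ∀ p : W × Bool, (op p).trace =
      ((if cod p.1 = 0 then (if p.2 then (-64 : ℤ) else 64) else 0 : ℤ) : ℂ) := by
    intro p
    unfold op
    rw [Matrix.trace_smul, pauli_trace]
    by_cases h : cod p.1 = 0
    · have h2 : p.1 = fun _ => I := by
        apply cod_inj
        rw [h]; rfl
      rw [if_pos h2, if_pos h]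
      cases p.2 <;> simp [sgn] <;> norm_num
    · have h2 : p.1 ≠ fun _ => I := by
        intro h3
        apply h
        rw [h3]; rfl
      rw [if_neg h2, if_neg h]
      simp
  have h2 : Q.trace = (L0.map fun p => (op p).trace).sum := by
    unfold Q
    have : ∀ l : List (W × Bool), (l.map op).sum.trace = (l.map fun p => (op p).trace).sum := by
      intro l
      induction l with
      | nil => simp
      | cons a t ih => simp [Matrix.trace_add, ih]
    exact this L0
  have h3 : (L0.map fun p => (if cod p.1 = 0 then (if p.2 then (-64 : ℤ) else 64) else 0 : ℤ)).sum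
      = 64 := by decide +kernel
  rw [h2, List.map_congr_left (fun p _ => h1 p)]
  have h4 : ∀ l : List (W × Bool), (l.map fun p =>
      ((if cod p.1 = 0 then (if p.2 then (-64 : ℤ) else 64) else 0 : ℤ) : ℂ)).sum =
      (((l.map fun p => (if cod p.1 = 0 then (if p.2 then (-64 : ℤ) else 64) else 0 : ℤ)).sum : ℤ)
        : ℂ) := by
    intro l
    induction l with
    | nil => simp
    | cons a t ih =>
      rw [List.map_cons, List.map_cons, List.sum_cons, List.sum_cons, Int.cast_add, ih]
  rw [h4, h3]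
  norm_num

/-- the stabilized unit vector exists -/
lemma exists_psi : ∃ ψ : (Fin 6 → Fin 2) → ℂ, star ψ ⬝ᵥ ψ = 1 ∧ ∀ g ∈ gens, Eig ψ g.1 g.2 := by
  have hQ : Q ≠ 0 := by
    intro h
    have := trace_Q
    rw [h, Matrix.trace_zero] at this
    norm_num at this
  obtain ⟨s, hs⟩ := Function.ne_iff.1 hQ
  obtain ⟨t, ht⟩ := Function.ne_iff.1 hs
  set v : (Fin 6 → Fin 2) → ℂ := fun s => Q s t with hv
  have hv0 : v ≠ 0 := by
    intro h
    exact ht (congrFun h s)
  have hfix : ∀ g ∈ gens, op g *ᵥ v = v := by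
    intro g hg
    have h1 := gens_mul_Q g hg
    funext s
    have := congrFun (congrFun h1 s) t
    rw [Matrix.mul_apply] at this
    exact this
  set r : ℝ := ∑ s, ‖v s‖ ^ 2 with hr
  have hr0 : 0 < r := by
    obtain ⟨s, hs⟩ := Function.ne_iff.1 hv0
    refine Finset.sum_pos' (fun i _ => by positivity) ⟨s, Finset.mem_univ s, ?_⟩
    have : 0 < ‖v s‖ := norm_pos_iff.2 hs
    positivity
  have hvv : star v ⬝ᵥ v = (r : ℂ) := by
    rw [hr]
    push_cast
    unfold dotProduct
    refine Finset.sum_congr rfl fun s _ => ?_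
    rw [Pi.star_apply, Complex.star_def, mul_comm, Complex.mul_conj, Complex.normSq_eq_norm_sq]
    push_cast
    rfl
  have hsq : (Real.sqrt r) * (Real.sqrt r) = r := Real.mul_self_sqrt hr0.le
  have hsp : 0 < Real.sqrt r := Real.sqrt_pos.2 hr0
  refine ⟨((Real.sqrt r : ℝ) : ℂ)⁻¹ • v, ?_, ?_⟩
  · rw [star_smul, smul_dotProduct, dotProduct_smul, hvv, smul_eq_mul, smul_eq_mul]
    have h1 : star ((Real.sqrt r : ℂ)⁻¹) = (Real.sqrt r : ℂ)⁻¹ := by
      rw [star_inv₀, Complex.star_def, Complex.conj_ofReal]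
    rw [h1]
    have h2 : (Real.sqrt r : ℂ) ≠ 0 := by exact_mod_cast hsp.ne'
    have h3 : (r : ℂ) = (Real.sqrt r : ℂ) * (Real.sqrt r : ℂ) := by exact_mod_cast hsq.symm
    rw [h3]
    field_simp
  · intro g hg
    have h1 := hfix g hg
    unfold op at h1
    unfold Eig
    rw [Matrix.mulVec_smul, smul_comm]
    congr 1
    rw [Matrix.smul_mulVec] at h1
    have h2 : sgn g.2 • v = pauli g.1 *ᵥ v := by
      conv_lhs => rw [← h1]
      rw [smul_smul, sgn_sq, one_smul]
    rw [← h2]
    rfl

/-- the stabilizer group as a set of operators -/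
noncomputable def G0 : Finset (Op 6) :=
  (univ.filter fun w : W => e0 w ≠ 0).image fun w => (e0 w : ℂ) • pauli w

lemma e0_cases (w : W) : e0 w = 0 ∨ e0 w = 1 ∨ e0 w = -1 := by
  rcases lk_spec (cod w) T0 with ⟨h1, -⟩ | ⟨b, -, h2⟩
  · exact Or.inl (by rw [e0_eq, h1])
  · rw [e0_eq, h2]; cases b <;> simp

lemma card_supp : (univ.filter fun w : W => e0 w ≠ 0).card = 64 := by
  have h1 : (univ.filter fun w : W => e0 w ≠ 0) = (L0.map Prod.fst).toFinset := by
    ext w
    rw [Finset.mem_filter, List.mem_toFinset, List.mem_map]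
    constructor
    · rintro ⟨-, h⟩
      rcases lk_spec (cod w) T0 with ⟨h1, -⟩ | ⟨b, h1, -⟩
      · exact absurd (by rw [e0_eq, h1]) h
      · rw [← L0_cod] at h1
        obtain ⟨p, hp, hpe⟩ := List.mem_map.1 h1
        exact ⟨p, hp, cod_inj (congrArg Prod.fst hpe)⟩
    · rintro ⟨p, hp, rfl⟩
      refine ⟨Finset.mem_univ _, ?_⟩
      rcases lk_spec (cod p.1) T0 with ⟨-, h2⟩ | ⟨b, -, h2⟩
      · exfalso
        apply h2 p.2
        rw [← L0_cod]
        exact List.mem_map.2 ⟨p, hp, rfl⟩
      · rw [e0_eq, h2]; cases b <;> simp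
  have h2 : (T0.map Prod.fst).Nodup := by decide +kernel
  rw [← L0_cod, List.map_map] at h2
  have h3 : (L0.map Prod.fst).Nodup := by
    apply List.Nodup.of_map cod
    rw [List.map_map]
    exact h2
  rw [h1, List.toFinset_card_of_nodup h3, List.length_map]
  have : T0.length = 64 := by decide +kernel
  rw [← L0_cod, List.length_map] at this
  exact this

theorem exists_stab : ∃ (ψ : (Fin 6 → Fin 2) → ℂ),
    StabW (vecMulVec ψ (star ψ)) ψ G0 ∧ ∀ g ∈ gens, Eig ψ g.1 g.2 := by
  obtain ⟨ψ, hn, hg⟩ := exists_psi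
  have h0 := ne_zero_of_norm hn
  have hfix : ∀ w : W, e0 w ≠ 0 → ((e0 w : ℂ) • pauli w) *ᵥ ψ = ψ := by
    intro w hw
    rcases e0_spec h0 hg w with ⟨h1, -⟩ | ⟨b, h1, h2⟩
    · exact absurd h1 hw
    · rw [Matrix.smul_mulVec, h1, h2, smul_smul]
      cases b <;> simp
  refine ⟨ψ, ⟨hn, rfl, ?_, ?_, ?_, ?_, ?_, ?_⟩, hg⟩
  · unfold G0
    rw [Finset.card_image_of_injOn, card_supp]
    · norm_num
    · intro w hw w' hw' he
      have hw1 : e0 w ≠ 0 := (Finset.mem_filter.1 hw).2
      by_contra hne
      have h1 := congrArg (fun A => (A * pauli w).trace) he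
      simp only [Matrix.smul_mul, Matrix.trace_smul, pauli_sq, Matrix.trace_one] at h1
      rw [trace_pauli_mul w' w (fun h => hne h.symm), smul_zero] at h1
      have h2 : (e0 w : ℂ) ≠ 0 := by exact_mod_cast hw1
      simp [h2] at h1
  · intro g hgm
    obtain ⟨w, hw, rfl⟩ := Finset.mem_image.1 hgm
    have hw1 : e0 w ≠ 0 := (Finset.mem_filter.1 hw).2
    refine ⟨w, ?_⟩
    rcases e0_cases w with h | h | h
    · exact absurd h hw1
    · left; rw [h]; simp
    · right; rw [h]; simp
  · refine Finset.mem_image.2 ⟨fun _ => I, ?_, ?_⟩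
    · rw [Finset.mem_filter]
      exact ⟨Finset.mem_univ _, by decide +kernel⟩
    · have : e0 (fun _ => I) = 1 := by decide +kernel
      rw [this, pauli_zero]; simp
  · intro g hgm h hhm
    obtain ⟨w, hw, rfl⟩ := Finset.mem_image.1 hgm
    obtain ⟨w', hw', rfl⟩ := Finset.mem_image.1 hhm
    have hw1 : e0 w ≠ 0 := (Finset.mem_filter.1 hw).2
    have hw1' : e0 w' ≠ 0 := (Finset.mem_filter.1 hw').2
    obtain ⟨b, hb, hb2⟩ := (e0_spec h0 hg w).resolve_left fun h => hw1 h.1
    obtain ⟨b', hb', hb2'⟩ := (e0_spec h0 hg w').resolve_left fun h => hw1' h.1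
    obtain ⟨he, hm⟩ := eig_mul h0 hb hb'
    have hadd := pW_add w w'
    have hprod : ((e0 w : ℂ) • pauli w) * ((e0 w' : ℂ) • pauli w') =
        (e0 (mW w w') : ℂ) • pauli (mW w w') := by
      rcases e0_spec h0 hg (mW w w') with ⟨-, g, hgm, hodd⟩ | ⟨b3, h3, h4⟩
      · exfalso
        have := (eig_mul h0 (hg g hgm) hm).1
        omega
      · have hb3 : b3 = ((b.xor b').xor (pW w w' % 4 == 2)) := by
          unfold Eig at h3 hm
          rw [h3] at hm
          obtain ⟨s, hs⟩ := Function.ne_iff.1 h0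
          have := congrFun hm s
          simp only [Pi.smul_apply, smul_eq_mul] at this
          have h5 := mul_right_cancel₀ hs this
          revert h5
          generalize ((b.xor b').xor (pW w w' % 4 == 2)) = b4
          cases b3 <;> cases b4 <;> simp
          · intro h; norm_num [Complex.ext_iff] at h
          · intro h; norm_num [Complex.ext_iff] at h
        rw [h4, hb2, hb2', hb3, Matrix.smul_mul, Matrix.mul_smul, smul_smul, pauli_mul, smul_smul,
          I_pow_mod]
        congr 1
        have h1 : pW w w' % 4 = 0 ∨ pW w w' % 4 = 2 := by omega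
        rcases h1 with h1 | h1
        · rw [h1, pow_zero, mul_one]
          cases b <;> cases b' <;> simp
        · rw [h1, Complex.I_sq]
          cases b <;> cases b' <;> simp
    constructor
    · rw [hprod]
      refine Finset.mem_image.2 ⟨mW w w', ?_, rfl⟩
      rw [Finset.mem_filter]
      refine ⟨Finset.mem_univ _, ?_⟩
      intro hz
      rcases e0_spec h0 hg (mW w w') with ⟨-, g, hgm, hodd⟩ | ⟨b3, h3, h4⟩
      · have := (eig_mul h0 (hg g hgm) hm).1
        omega
      · rw [hz] at h4
        cases b3 <;> simp at h4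
    · rw [Matrix.smul_mul, Matrix.mul_smul, Matrix.smul_mul, Matrix.mul_smul, pauli_mul, pauli_mul,
        mW_comm w' w, smul_comm]
      congr 2
      rw [I_pow_mod (pW w w'), I_pow_mod (pW w' w)]
      have h1 : pW w w' % 4 = pW w' w % 4 := by omega
      rw [h1]
  · intro hm
    obtain ⟨w, hw, hwe⟩ := Finset.mem_image.1 hm
    have h1 := hfix w (Finset.mem_filter.1 hw).2
    rw [hwe, Matrix.neg_mulVec, Matrix.one_mulVec] at h1
    apply h0
    funext s
    have := congrFun h1 s
    simp only [Pi.neg_apply] at this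
    have h2 : 2 * ψ s = 0 := by linear_combination -this
    simpa using h2
  · intro g hgm
    obtain ⟨w, hw, rfl⟩ := Finset.mem_image.1 hgm
    exact hfix w (Finset.mem_filter.1 hw).2

end Q265.UC
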