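import Pool.Agent.Q265.UC.Psi

set_option autoImplicit false

namespace Q265.UC

open Matrix Finset Label

section general

variable {N : ℕ}

/-- the support of a word -/
def supp (w : Fin N → Label) : Finset (Fin N) := univ.filter fun j => w j ≠ I

/-- number of occurrences of a label -/
def cnt (w : Fin N → Label) (l : Label) : ℕ := (univ.filter fun j => w j = l).card

/-- the symmetrized operator -/
def S (a b c : ℕ) (J : Finset (Fin N)) : Op N :=
  ∑ w ∈ univ.filter (fun w : Fin N → Label =>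
    supp w = J ∧ cnt w X = a ∧ cnt w Y = b ∧ cnt w Z = c), pauli w

lemma trace_S (ρ : Op N) (a b c : ℕ) (J : Finset (Fin N)) : (ρ * S a b c J).trace =
    ∑ w ∈ univ.filter (fun w : Fin N → Label =>
      supp w = J ∧ cnt w X = a ∧ cnt w Y = b ∧ cnt w Z = c), (ρ * pauli w).trace := by
  unfold S
  rw [Finset.mul_sum, Matrix.trace_sum]

end general

/-- product of Gaussian integers -/
def gm (x y : ℤ × ℤ) : ℤ × ℤ := (x.1 * y.1 - x.2 * y.2, x.1 * y.2 + x.2 * y.1)

/-- powers of `i` -/
def gi (n : ℕ) : ℤ × ℤ :=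
  match n % 4 with
  | 0 => (1, 0)
  | 1 => (0, 1)
  | 2 => (-1, 0)
  | _ => (0, -1)

/-- Gaussian integers as complex numbers -/
noncomputable def toC (x : ℤ × ℤ) : ℂ := x.1 + x.2 * Complex.I

lemma toC_gm (x y : ℤ × ℤ) : toC (gm x y) = toC x * toC y := by
  unfold toC gm
  push_cast
  linear_combination (-(x.2 : ℂ) * y.2) * Complex.I_mul_I

lemma toC_gi (n : ℕ) : toC (gi n) = Complex.I ^ n := by
  rw [I_pow_mod]
  unfold gi
  have : n % 4 = 0 ∨ n % 4 = 1 ∨ n % 4 = 2 ∨ n % 4 = 3 := by omega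
  rcases this with h | h | h | h <;> rw [h] <;> simp [toC, Complex.I_pow_three]

lemma toC_conj (x : ℤ × ℤ) : toC (x.1, -x.2) = star (toC x) := by
  unfold toC
  simp

lemma toC_add (x y : ℤ × ℤ) : toC (x.1 + y.1, x.2 + y.2) = toC x + toC y := by
  unfold toC
  push_cast
  ring

/-- the operator `4 + i (1 + U + V - U V)`, `U = Z₂ Z₅`, `V = Z₃ Z₄` -/
def AL : List ((ℤ × ℤ) × W) :=
  [((4, 1), ![I, I, I, I, I, I]), ((0, 1), ![I, Z, I, I, Z, I]), ((0, 1), ![I, I, Z, Z, I, I]),
    ((0, -1), ![I, Z, Z, Z, Z, I])]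

/-- the operator as a matrix -/
noncomputable def A : Op 6 := (AL.map fun x => toC x.1 • pauli x.2).sum

/-- one term -/
def term (w : W) (x y : (ℤ × ℤ) × W) : ℤ × ℤ :=
  gm (gm x.1 (y.1.1, -y.1.2)) (gm (gi (p6 y.2 w + p6 (mW y.2 w) x.2)) (e0 (mW (mW y.2 w) x.2), 0))

/-- sum of a list -/
def gs : List (ℤ × ℤ) → ℤ × ℤ
  | [] => (0, 0)
  | x :: t => (x.1 + (gs t).1, x.2 + (gs t).2)

lemma toC_gs (l : List (ℤ × ℤ)) : toC (gs l) = (l.map toC).sum := by
  induction l with
  | nil => simp [gs, toC]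
  | cons a t ih => rw [gs, toC_add, ih, List.map_cons, List.sum_cons]

/-- twenty times the expectation value -/
def cZ (w : W) : ℤ × ℤ := gs (AL.map fun x => gs (AL.map fun y => term w x y))

lemma sum_map_conj (l : List ((ℤ × ℤ) × W)) :
    (l.map fun x => toC x.1 • pauli x.2).sumᴴ = (l.map fun x => star (toC x.1) • pauli x.2).sum := by
  induction l with
  | nil => simp
  | cons a t ih =>
    rw [List.map_cons, List.sum_cons, List.map_cons, List.sum_cons, Matrix.conjTranspose_add, ih,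
      Matrix.conjTranspose_smul, pauli_conj]

lemma trace_term {ρ : Op 6} (hρ : ∀ w, (ρ * pauli w).trace = (e0 w : ℂ)) (w : W)
    (x y : (ℤ × ℤ) × W) :
    (((toC x.1 • pauli x.2) * ρ * (star (toC y.1) • pauli y.2)) * pauli w).trace =
      toC (term w x y) := by
  have h1 : (((toC x.1 • pauli x.2) * ρ * (star (toC y.1) • pauli y.2)) * pauli w) =
      (toC x.1 * star (toC y.1)) • (pauli x.2 * (ρ * (pauli y.2 * pauli w))) := by
    simp only [Matrix.smul_mul, Matrix.mul_smul, smul_smul, Matrix.mul_assoc]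
    rw [mul_comm]
  rw [h1, Matrix.trace_smul, Matrix.trace_mul_comm, Matrix.mul_assoc, pauli_mul, Matrix.smul_mul,
    pauli_mul, smul_smul, Matrix.mul_smul, Matrix.trace_smul, hρ]
  unfold term
  rw [toC_gm, toC_gm, toC_gm, toC_gi, toC_conj, ← pW_eq, ← pW_eq, pow_add, smul_eq_mul, smul_eq_mul]
  congr 1
  congr 1
  simp [toC]

lemma trace_A {ρ : Op 6} (hρ : ∀ w, (ρ * pauli w).trace = (e0 w : ℂ)) (w : W) :
    ((A * ρ * Aᴴ) * pauli w).trace = toC (cZ w) := by
  have key : ∀ l l' : List ((ℤ × ℤ) × W),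
      (((l.map fun x => toC x.1 • pauli x.2).sum * ρ *
        (l'.map fun x => star (toC x.1) • pauli x.2).sum) * pauli w).trace =
      (l.map fun x => (l'.map fun y => toC (term w x y)).sum).sum := by
    intro l l'
    induction l with
    | nil => simp
    | cons a t ih =>
      rw [List.map_cons, List.sum_cons, List.map_cons, List.sum_cons, ← ih, Matrix.add_mul,
        Matrix.add_mul, Matrix.add_mul, Matrix.trace_add]
      congr 1
      clear ih
      induction l' with
      | nil => simp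
      | cons b t' ih' =>
        rw [List.map_cons, List.sum_cons, List.map_cons, List.sum_cons, ← ih', Matrix.mul_add,
          Matrix.add_mul, Matrix.trace_add, trace_term hρ]
  unfold cZ
  rw [toC_gs, List.map_map]
  have h1 : (AL.map (toC ∘ fun x => gs (AL.map fun y => term w x y))) =
      AL.map fun x => (AL.map fun y => toC (term w x y)).sum := by
    refine List.map_congr_left fun x _ => ?_
    rw [Function.comp_apply, toC_gs, List.map_map]
    rfl
  rw [h1, ← key]
  unfold A
  rw [sum_map_conj]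

/-- generators of the subgroup of the common values -/
def KL : List W :=
  [![I, Z, Y, Y, Z, I], ![I, X, Z, Z, X, I], ![Z, I, X, X, I, Z], ![Y, I, Z, Z, I, Y]]

/-- codes of the words with different values, and twenty times the difference -/
def TD : List (ℕ × ℤ) :=
  [(3648, -4), (1920, -4), (2496, 8), (3600, 4), (2448, 4), (2000, -8), (1824, 4), (2400, -4), (3808,
    8), (2352, -8), (1904, 8), (3760, -8), (3908, -8), (1668, 8), (2244, -8), (3860, 8), (2196, -4),
    (1748, -4), (1572, -8), (2148, 4), (4068, -4), (2100, 8), (1652, 4), (4020, 4), (3144, 4),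
    (1416, -8), (3016, 4), (3096, -4), (2968, -8), (1496, 4), (1320, 8), (2920, 8), (3304, -8),
    (2872, -4), (1400, -4), (3256, 8), (3404, 8), (1164, 4), (2764, -4), (3356, -8), (2716, 8),
    (1244, 8), (1068, -4), (2668, -8), (3564, 4), (2620, 4), (1148, -8), (3516, -4), (2625, 8),
    (897, 4), (3521, -4), (2577, -8), (3473, 8), (977, 8), (801, -4), (3425, -8), (2785, 4), (3377,
    4), (881, -8), (2737, -4), (2885, -4), (645, -8), (3269, 4), (2837, 4), (3221, -8), (725, 4),
    (549, 8), (3173, 8), (3045, 8), (3125, -4), (629, -4), (2997, -8), (2121, -8), (393, 8), (4041,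
    8), (2073, 8), (3993, 4), (473, -4), (297, -8), (3945, -4), (2281, -4), (3897, -8), (377, 4),
    (2233, 4), (2381, 4), (141, -4), (3789, -8), (2333, -4), (3741, -4), (221, -8), (45, 4), (3693,
    4), (2541, -8), (3645, 8), (125, 8), (2493, 8), (1602, -8), (3970, 8), (450, -8), (1554, 8),
    (402, -4), (4050, -4), (3874, -8), (354, 4), (1762, -4), (306, 8), (3954, 4), (1714, 4), (1862,
    4), (3718, 4), (198, 8), (1814, -4), (150, 4), (3798, 8), (3622, -4), (102, -4), (2022, -8),
    (54, -8), (3702, -8), (1974, 8), (1098, 8), (3466, -4), (970, -4), (1050, -8), (922, 8), (3546,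
    -8), (3370, 4), (874, -8), (1258, 4), (826, 4), (3450, 8), (1210, -4), (1358, -4), (3214, -8),
    (718, 4), (1310, 4), (670, -8), (3294, 4), (3118, 8), (622, 8), (1518, 8), (574, -4), (3198,
    -4), (1470, -8), (579, 4), (2947, -8), (1475, 4), (531, -4), (1427, -8), (3027, 4), (2851, 8),
    (1379, 8), (739, -8), (1331, -4), (2931, -4), (691, 8), (839, 8), (2695, -4), (1223, -4), (791,
    -8), (1175, 8), (2775, -8), (2599, 4), (1127, -8), (999, 4), (1079, 4), (2679, 8), (951, -4),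
    (75, -4), (2443, 4), (1995, -8), (27, 4), (1947, -4), (2523, 8), (2347, -4), (1899, 4), (235,
    8), (1851, 8), (2427, -8), (187, -8), (335, -8), (2191, 8), (1743, 8), (287, 8), (1695, 4),
    (2271, -4), (2095, -8), (1647, -4), (495, -4), (1599, -8), (2175, 4), (447, 4)]

/-- look up a code -/
def lkD (c : ℕ) (T : List (ℕ × ℤ)) : ℤ :=
  List.rec (motive := fun _ => ℤ) 0 (fun p _ ih => cond (Nat.beq c p.1) p.2 ih) T

/-- twenty times the difference of the expectation values -/
def d0 (w : W) : ℤ :=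
  cond (KL.any fun k => p6 k w % 2 == 1) 0 (force (cod w) fun c => lkD c TD)

lemma check (w : W) : ((∃ k ∈ KL, p6 k w % 2 = 1) ∧ d0 w = 0) ∨ cZ w = (20 * e0 w + d0 w, 0) := by
  have h : allW (fun w => cond (KL.any fun k => p6 k w % 2 == 1) true
      (cZ w == (20 * e0 w + force (cod w) fun c => lkD c TD, 0))) = true := by decide +kernel
  have h1 := allW_spec h w
  unfold d0
  cases h2 : (KL.any fun k => p6 k w % 2 == 1)
  · right
    rw [h2] at h1
    simpa using h1
  · left
    rw [List.any_eq_true] at h2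
    obtain ⟨k, hk, h3⟩ := h2
    exact ⟨⟨k, hk, by simpa using h3⟩, rfl⟩

lemma KL_comm : ∀ k ∈ KL, ∀ x ∈ AL, p6 k x.2 % 2 = 0 := by
  have h : (KL.all fun k => AL.all fun x => p6 k x.2 % 2 == 0) = true := by decide +kernel
  intro k hk x hx
  rw [List.all_eq_true] at h
  have h1 := h k hk
  rw [List.all_eq_true] at h1
  simpa using h1 x hx

lemma KL_e0 : ∀ k ∈ KL, e0 k = 1 := by
  have h : (KL.all fun k => e0 k == 1) = true := by decide +kernel
  intro k hk
  rw [List.all_eq_true] at h
  simpa using h k hk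

lemma comm_even {N : ℕ} {w w' : Fin N → Label} (h : pW w w' % 2 = 0) :
    pauli w * pauli w' = pauli w' * pauli w := by
  rw [pauli_mul, pauli_mul, mW_comm w' w]
  congr 1
  have hadd := pW_add w w'
  rw [I_pow_mod (pW w w'), I_pow_mod (pW w' w)]
  have h1 : pW w w' % 4 = pW w' w % 4 := by omega
  rw [h1]

lemma K_mul_A {k : W} (hk : k ∈ KL) : pauli k * A = A * pauli k := by
  have key : ∀ l : List ((ℤ × ℤ) × W), (∀ x ∈ l, p6 k x.2 % 2 = 0) →
      pauli k * (l.map fun x => toC x.1 • pauli x.2).sum =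
        (l.map fun x => toC x.1 • pauli x.2).sum * pauli k := by
    intro l
    induction l with
    | nil => simp
    | cons a t ih =>
      intro hl
      rw [List.map_cons, List.sum_cons, Matrix.mul_add, Matrix.add_mul,
        ih (fun x hx => hl x (List.mem_cons_of_mem _ hx)), Matrix.mul_smul, Matrix.smul_mul,
        comm_even (by rw [pW_eq]; exact hl a (List.mem_cons_self ..))]
  exact key AL (KL_comm k hk)

/-- the other state -/
theorem exists_phi {ψ : (Fin 6 → Fin 2) → ℂ} (hn : star ψ ⬝ᵥ ψ = 1)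
    (hg : ∀ g ∈ gens, Eig ψ g.1 g.2) :
    ∃ φ : (Fin 6 → Fin 2) → ℂ, star φ ⬝ᵥ φ = 1 ∧
      ∀ w : W, 20 * (vecMulVec φ (star φ) * pauli w).trace =
        20 * (vecMulVec ψ (star ψ) * pauli w).trace + (d0 w : ℂ) := by
  have h0 := ne_zero_of_norm hn
  have hρ := ev_e0 hn hg
  set ρ := vecMulVec ψ (star ψ) with hρd
  have h20 : (Real.sqrt 20) * (Real.sqrt 20) = 20 := Real.mul_self_sqrt (by norm_num)
  have h20p : 0 < Real.sqrt 20 := Real.sqrt_pos.2 (by norm_num)
  set c : ℂ := ((Real.sqrt 20 : ℝ) : ℂ)⁻¹ with hc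
  have hcs : star c = c := by
    rw [hc, star_inv₀, Complex.star_def, Complex.conj_ofReal]
  have hcc : 20 * (c * c) = 1 := by
    have h1 : ((Real.sqrt 20 : ℝ) : ℂ) * ((Real.sqrt 20 : ℝ) : ℂ) = 20 := by exact_mod_cast h20
    have h2 : ((Real.sqrt 20 : ℝ) : ℂ) ≠ 0 := by exact_mod_cast h20p.ne'
    rw [hc, ← h1]
    field_simp
  set φ := c • (A *ᵥ ψ) with hφ
  have hρφ : vecMulVec φ (star φ) = (c * c) • (A * ρ * Aᴴ) := by
    rw [hφ, star_smul, Matrix.smul_vecMulVec, Matrix.vecMulVec_smul, smul_smul, hcs,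
      Matrix.star_mulVec, ← Matrix.vecMulVec_mul, ← Matrix.mul_vecMulVec, Matrix.mul_assoc]
  have hev : ∀ w, 20 * (vecMulVec φ (star φ) * pauli w).trace = toC (cZ w) := by
    intro w
    rw [hρφ, Matrix.smul_mul, Matrix.trace_smul, trace_A hρ, smul_eq_mul, ← mul_assoc, hcc, one_mul]
  have hcz : cZ (fun _ => I) = (20, 0) := by decide +kernel
  have hφn : star φ ⬝ᵥ φ = 1 := by
    have h1 := hev (fun _ => I)
    rw [pauli_zero, Matrix.mul_one, hcz, Matrix.trace_vecMulVec, dotProduct_comm] at h1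
    have h2 : toC (20, 0) = 20 := by simp [toC]
    rw [h2] at h1
    have h3 : (20 : ℂ) ≠ 0 := by norm_num
    exact mul_left_cancel₀ h3 (by rw [h1, mul_one])
  refine ⟨φ, hφn, fun w => ?_⟩
  rcases check w with ⟨⟨k, hk, h1⟩, h2⟩ | h
  · have hkψ : Eig ψ k false := by
      rcases e0_spec h0 hg k with ⟨h3, -⟩ | ⟨b, h3, h4⟩
      · rw [KL_e0 k hk] at h3; norm_num at h3
      · rw [KL_e0 k hk] at h4
        cases b
        · exact h3
        · norm_num at h4
    have hkφ : Eig φ k false := by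
      unfold Eig at hkψ ⊢
      rw [hφ, Matrix.mulVec_smul, Matrix.mulVec_mulVec, K_mul_A hk, ← Matrix.mulVec_mulVec, hkψ]
      simp
    have h5 : pW k w % 2 = 1 := by rw [pW_eq]; exact h1
    rw [ev_anti hkφ h5, hρd, ev_anti hkψ h5, h2]
    simp
  · rw [hev, h, hρ]
    simp [toC]

end Q265.UC
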