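import Pool.Agent.Q265.UC.Basic

set_option autoImplicit false

namespace Q265.UC

open Matrix Finset Label
open scoped ComplexOrder

/-- `ψ` is a unit vector, `ρ` its density matrix, `G` an abelian group of `2 ^ N` signed Pauli strings
fixing `ψ` -/
structure StabW {N : ℕ} (ρ : Op N) (ψ : (Fin N → Fin 2) → ℂ) (G : Finset (Op N)) : Prop where
  norm : star ψ ⬝ᵥ ψ = 1
  rho : ρ = vecMulVec ψ (star ψ)
  card : G.card = 2 ^ N
  paulis : ∀ g ∈ G, ∃ w, g = pauli w ∨ g = -pauli w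
  one : 1 ∈ G
  mul : ∀ g ∈ G, ∀ h ∈ G, g * h ∈ G ∧ g * h = h * g
  neg : -1 ∉ G
  fix : ∀ g ∈ G, g *ᵥ ψ = ψ

section unit

variable {N : ℕ} {ψ : (Fin N → Fin 2) → ℂ}

lemma ne_zero_of_norm (h : star ψ ⬝ᵥ ψ = 1) : ψ ≠ 0 := by
  rintro rfl
  simp at h

lemma trace_rho (h : star ψ ⬝ᵥ ψ = 1) : (vecMulVec ψ (star ψ)).trace = 1 := by
  rw [Matrix.trace_vecMulVec, dotProduct_comm, h]

lemma rho_herm : (vecMulVec ψ (star ψ))ᴴ = vecMulVec ψ (star ψ) := by
  rw [Matrix.conjTranspose_vecMulVec, star_star]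

lemma rho_sq (h : star ψ ⬝ᵥ ψ = 1) :
    vecMulVec ψ (star ψ) * vecMulVec ψ (star ψ) = vecMulVec ψ (star ψ) := by
  rw [Matrix.vecMulVec_mul_vecMulVec, h, one_smul]

lemma mul_rho (A : Op N) : A * vecMulVec ψ (star ψ) = vecMulVec (A *ᵥ ψ) (star ψ) := by
  rw [Matrix.mul_vecMulVec]

lemma pauli_mul_rho {w : Fin N → Label} {b : Bool} (hw : Eig ψ w b) :
    pauli w * vecMulVec ψ (star ψ) = (if b then (-1 : ℂ) else 1) • vecMulVec ψ (star ψ) := by
  rw [mul_rho, hw, Matrix.smul_vecMulVec]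

lemma rho_mul_pauli {w : Fin N → Label} {b : Bool} (hw : Eig ψ w b) :
    vecMulVec ψ (star ψ) * pauli w = (if b then (-1 : ℂ) else 1) • vecMulVec ψ (star ψ) := by
  have h1 := congrArg Matrix.conjTranspose (pauli_mul_rho hw)
  rw [Matrix.conjTranspose_mul, rho_herm, pauli_conj, Matrix.conjTranspose_smul, rho_herm] at h1
  rw [h1]
  cases b <;> simp

lemma ev_eig (h : star ψ ⬝ᵥ ψ = 1) {w : Fin N → Label} {b : Bool} (hw : Eig ψ w b) :
    (vecMulVec ψ (star ψ) * pauli w).trace = if b then (-1 : ℂ) else 1 := by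
  rw [rho_mul_pauli hw, Matrix.trace_smul, trace_rho h, smul_eq_mul, mul_one]

lemma anti {w w' : Fin N → Label} (h : pW w w' % 2 = 1) :
    pauli w * pauli w' = -(pauli w' * pauli w) := by
  rw [pauli_mul, pauli_mul, mW_comm w' w, ← neg_smul]
  congr 1
  have hadd := pW_add w w'
  rw [I_pow_mod (pW w w'), I_pow_mod (pW w' w)]
  have h1 : (pW w w' % 4 = 1 ∧ pW w' w % 4 = 3) ∨ (pW w w' % 4 = 3 ∧ pW w' w % 4 = 1) := by omega
  rcases h1 with ⟨h1, h2⟩ | ⟨h1, h2⟩
  · rw [h1, h2, Complex.I_pow_three]; simp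
  · rw [h1, h2, Complex.I_pow_three]; simp

lemma ev_anti {w w' : Fin N → Label} {b : Bool} (hw : Eig ψ w b) (h : pW w w' % 2 = 1) :
    (vecMulVec ψ (star ψ) * pauli w').trace = 0 := by
  set ρ := vecMulVec ψ (star ψ) with hρ
  set c : ℂ := if b then (-1 : ℂ) else 1 with hc
  have hcc : c * c = 1 := by rw [hc]; cases b <;> norm_num
  have h1 : pauli w * ρ = c • ρ := pauli_mul_rho hw
  have h2 : ρ * pauli w = c • ρ := rho_mul_pauli hw
  have h3 : (ρ * pauli w * pauli w').trace = c * (ρ * pauli w').trace := by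
    rw [h2, Matrix.smul_mul, Matrix.trace_smul, smul_eq_mul]
  have h4 : (ρ * pauli w * pauli w').trace = -(c * (ρ * pauli w').trace) := by
    rw [Matrix.mul_assoc, anti h, Matrix.mul_neg, Matrix.trace_neg, ← Matrix.mul_assoc,
      Matrix.trace_mul_comm, ← Matrix.mul_assoc, h1, Matrix.smul_mul, Matrix.trace_smul,
      smul_eq_mul]
  have h5 : c * (ρ * pauli w').trace = 0 := by
    have := h3.symm.trans h4
    have h6 : 2 * (c * (ρ * pauli w').trace) = 0 := by linear_combination this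
    simpa using h6
  have h7 : c * (c * (ρ * pauli w').trace) = 0 := by rw [h5, mul_zero]
  rwa [← mul_assoc, hcc, one_mul] at h7

end unit

section stab

variable {N : ℕ} {ρ : Op N} {ψ : (Fin N → Fin 2) → ℂ} {G : Finset (Op N)}

lemma StabW.sq (h : StabW ρ ψ G) {g : Op N} (hg : g ∈ G) : g * g = 1 := by
  obtain ⟨w, rfl | rfl⟩ := h.paulis g hg
  · exact pauli_sq w
  · rw [Matrix.neg_mul, Matrix.mul_neg, neg_neg, pauli_sq]

lemma StabW.mul_sum (h : StabW ρ ψ G) {g : Op N} (hg : g ∈ G) : g * ∑ k ∈ G, k = ∑ k ∈ G, k := by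
  rw [Finset.mul_sum]
  refine Finset.sum_nbij' (fun k => g * k) (fun k => g * k) ?_ ?_ ?_ ?_ ?_
  · intro k hk; exact (h.mul g hg k hk).1
  · intro k hk; exact (h.mul g hg k hk).1
  · intro k _; simp only [← Matrix.mul_assoc, h.sq hg, Matrix.one_mul]
  · intro k _; simp only [← Matrix.mul_assoc, h.sq hg, Matrix.one_mul]
  · intro k _; rfl

lemma StabW.sum_eq (h : StabW ρ ψ G) : ∑ k ∈ G, k = (2 : ℂ) ^ N • ρ := by
  set P := ∑ k ∈ G, k with hP
  have hc : (2 : ℂ) ^ N ≠ 0 := pow_ne_zero _ two_ne_zero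
  have hPP : P * P = (2 : ℂ) ^ N • P := by
    conv_lhs => lhs; rw [hP]
    rw [Finset.sum_mul, Finset.sum_congr rfl (fun g hg => h.mul_sum hg), Finset.sum_const, h.card,
      ← Nat.cast_smul_eq_nsmul ℂ]
    push_cast
    rfl
  have hPψ : P *ᵥ ψ = (2 : ℂ) ^ N • ψ := by
    rw [hP, Matrix.sum_mulVec, Finset.sum_congr rfl (fun g hg => h.fix g hg), Finset.sum_const,
      h.card, ← Nat.cast_smul_eq_nsmul ℂ]
    push_cast
    rfl
  have hPH : Pᴴ = P := by
    rw [hP, Matrix.conjTranspose_sum]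
    refine Finset.sum_congr rfl fun g hg => ?_
    obtain ⟨w, rfl | rfl⟩ := h.paulis g hg
    · exact pauli_conj w
    · rw [Matrix.conjTranspose_neg, pauli_conj]
  have htr : P.trace = 2 ^ N := by
    rw [hP, Matrix.trace_sum]
    have h1 : ∀ g ∈ G, g.trace = if g = 1 then (2 : ℂ) ^ N else 0 := by
      intro g hg
      split_ifs with h1
      · rw [h1, Matrix.trace_one]; simp
      · obtain ⟨w, rfl | rfl⟩ := h.paulis g hg
        · rw [pauli_trace, if_neg]
          rintro rfl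
          exact h1 pauli_zero
        · rw [Matrix.trace_neg, pauli_trace, if_neg, neg_zero]
          rintro rfl
          rw [pauli_zero] at hg
          exact h.neg hg
    rw [Finset.sum_congr rfl h1, Finset.sum_ite_eq' G 1, if_pos h.one]
  have hPρ : P * ρ = (2 : ℂ) ^ N • ρ := by
    rw [h.rho, mul_rho, hPψ, Matrix.smul_vecMulVec]
  have hρP : ρ * P = (2 : ℂ) ^ N • ρ := by
    have h1 := congrArg Matrix.conjTranspose hPρ
    rw [Matrix.conjTranspose_mul, hPH, Matrix.conjTranspose_smul, h.rho, rho_herm] at h1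
    rw [h.rho, h1]
    simp
  have hρρ : ρ * ρ = ρ := by rw [h.rho]; exact rho_sq h.norm
  set R := P - (2 : ℂ) ^ N • ρ with hR
  have hRR : R * R = (2 : ℂ) ^ N • R := by
    rw [hR, Matrix.sub_mul, Matrix.mul_sub, Matrix.mul_sub, hPP, Matrix.mul_smul, hPρ,
      Matrix.smul_mul, hρP, Matrix.smul_mul, Matrix.mul_smul, hρρ, smul_sub]
    simp
  have hRH : Rᴴ = R := by
    rw [hR, Matrix.conjTranspose_sub, hPH, Matrix.conjTranspose_smul, h.rho, rho_herm]
    simp
  have hRt : R.trace = 0 := by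
    rw [hR, Matrix.trace_sub, htr, Matrix.trace_smul, h.rho, trace_rho h.norm]
    simp
  have h0 : (Rᴴ * R).trace = 0 := by
    rw [hRH, hRR, Matrix.trace_smul, hRt, smul_zero]
  have hR0 := Matrix.trace_conjTranspose_mul_self_eq_zero_iff.1 h0
  exact sub_eq_zero.1 hR0

lemma StabW.ev (h : StabW ρ ψ G) (w : Fin N → Label) :
    (ρ * pauli w).trace = 0 ∨ ∃ b, Eig ψ w b := by
  by_cases h1 : pauli w ∈ G
  · right
    exact ⟨false, by unfold Eig; simpa using h.fix _ h1⟩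
  by_cases h2 : -pauli w ∈ G
  · right
    refine ⟨true, ?_⟩
    have := h.fix _ h2
    unfold Eig
    rw [Matrix.neg_mulVec] at this
    simp only [if_true, neg_smul, one_smul]
    rw [← this, neg_neg, this]
  left
  have h3 : ((2 : ℂ) ^ N • ρ * pauli w).trace = 0 := by
    rw [← h.sum_eq, Finset.sum_mul, Matrix.trace_sum]
    refine Finset.sum_eq_zero fun g hg => ?_
    obtain ⟨w', rfl | rfl⟩ := h.paulis g hg
    · exact trace_pauli_mul _ _ (by rintro rfl; exact h1 hg)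
    · rw [Matrix.neg_mul, Matrix.trace_neg, trace_pauli_mul _ _ (by rintro rfl; exact h2 hg),
        neg_zero]
  rw [Matrix.smul_mul, Matrix.trace_smul, smul_eq_mul] at h3
  have hc : (2 : ℂ) ^ N ≠ 0 := pow_ne_zero _ two_ne_zero
  exact (mul_eq_zero.1 h3).resolve_left hc

/-- a unit vector fixed by `G` gives the same density matrix -/
lemma StabW.unique (h : StabW ρ ψ G) {φ : (Fin N → Fin 2) → ℂ} (hφ : star φ ⬝ᵥ φ = 1)
    (hfix : ∀ g ∈ G, g *ᵥ φ = φ) : vecMulVec φ (star φ) = ρ := by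
  have hc : (2 : ℂ) ^ N ≠ 0 := pow_ne_zero _ two_ne_zero
  have h1 : ρ *ᵥ φ = φ := by
    have h2 : ((2 : ℂ) ^ N • ρ) *ᵥ φ = (2 : ℂ) ^ N • φ := by
      rw [← h.sum_eq, Matrix.sum_mulVec, Finset.sum_congr rfl (fun g hg => hfix g hg),
        Finset.sum_const, h.card, ← Nat.cast_smul_eq_nsmul ℂ]
      push_cast
      rfl
    rw [Matrix.smul_mulVec] at h2
    exact smul_right_injective _ hc h2
  rw [h.rho, Matrix.vecMulVec_mulVec] at h1
  set c := star ψ ⬝ᵥ φ with hcdef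
  have h1' : φ = c • ψ := by
    rw [← h1]
    funext s
    simp [mul_comm]
  have h3 : star c * c = 1 := by
    have := hφ
    rw [h1', star_smul, smul_dotProduct, dotProduct_smul, h.norm, smul_eq_mul, smul_eq_mul,
      mul_one] at this
    exact this
  rw [h1', star_smul, Matrix.smul_vecMulVec, Matrix.vecMulVec_smul, smul_smul, ← h.rho,
    mul_comm, h3, one_smul]

end stab

end Q265.UC
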