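import Pool.Agent.Q265.UC.Elim

set_option autoImplicit false

namespace Q265.UC

open Matrix Finset Label

lemma face_class (f : ℕ) (hf : f < 8) : IsClass (kn (fw f (X, Y, Z))) (PL.map (fw f)) := by
  interval_cases f
  · exact isClass_of [57, 45, 54, 30, 39, 27] (by decide +kernel) (by decide +kernel) (by decide +kernel)
      (by decide +kernel)
  · exact isClass_of [201, 141, 198, 78, 135, 75] (by decide +kernel) (by decide +kernel) (by decide +kernel)
      (by decide +kernel)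
  · exact isClass_of [561, 801, 306, 786, 291, 531] (by decide +kernel) (by decide +kernel) (by decide +kernel)
      (by decide +kernel)
  · exact isClass_of [705, 897, 450, 834, 387, 579] (by decide +kernel) (by decide +kernel) (by decide +kernel)
      (by decide +kernel)
  · exact isClass_of [1080, 1068, 2100, 2076, 3108, 3096] (by decide +kernel) (by decide +kernel) (by decide +kernel)
      (by decide +kernel)
  · exact isClass_of [1224, 1164, 2244, 2124, 3204, 3144] (by decide +kernel) (by decide +kernel) (by decide +kernel)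
      (by decide +kernel)
  · exact isClass_of [1584, 1824, 2352, 2832, 3360, 3600] (by decide +kernel) (by decide +kernel) (by decide +kernel)
      (by decide +kernel)
  · exact isClass_of [1728, 1920, 2496, 2880, 3456, 3648] (by decide +kernel) (by decide +kernel) (by decide +kernel)
      (by decide +kernel)

lemma face_sum (f : ℕ) (hf : f < 8) : ((PL.map (fw f)).map e0).sum = if fs f then -1 else 1 := by
  interval_cases f <;> decide +kernel

lemma face_bad (f : ℕ) (hf : f < 8) : ∀ t ∈ PL, ∀ t' ∈ PL, t ≠ t' →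
    bad (fw f t) (fw f t') = true := by
  interval_cases f <;> decide +kernel

lemma face_supp (f : ℕ) (hf : f < 8) : cod (fw f (X, Y, Z)) ≠ 0 := by
  interval_cases f <;> decide +kernel

lemma C1_class : IsClass (kn ![X, X, Y, Y, I, I]) C1 :=
  isClass_of [165, 153, 105, 150, 102, 90]
    (by decide +kernel) (by decide +kernel) (by decide +kernel) (by decide +kernel)

lemma C2_class : IsClass (kn ![Y, Y, Z, I, Z, I]) C2 :=
  isClass_of [826, 814, 574, 811, 571, 559]
    (by decide +kernel) (by decide +kernel) (by decide +kernel) (by decide +kernel)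

lemma C3_class : IsClass (kn ![X, Y, Z, Z, Z, I]) C3 :=
  isClass_of [1017, 1005, 957, 765, 1014, 990, 894, 510, 999, 951, 759, 987, 891, 507, 927, 735, 879,
    495, 639, 447]
    (by decide +kernel) (by decide +kernel) (by decide +kernel) (by decide +kernel)

/-- the known value in the alternative case -/
def v3 (w : W) : ℤ := if cod w = 951 ∨ cod w = 495 then 1 else 0

/-- the faces in the alternative case -/
def altF : List W :=
  [fw 0 (Z, Y, X), fw 1 (X, Z, Y), fw 2 (X, Z, Y), fw 3 (Z, Y, X), fw 4 (X, Z, Y), fw 5 (Z, Y, X),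
    fw 6 (Z, Y, X), fw 7 (X, Z, Y)]

lemma alt_check : ∀ w ∈ C3, (∃ u ∈ altF, p6 u w % 2 = 1) ∧ v3 w = 0 ∨
    (w = ![Z, X, Z, Y, Z, I] ∨ w = ![Z, Z, Y, Z, X, I]) ∧ v3 w = 1 := by
  have h : (C3.all fun w => ((altF.any fun u => p6 u w % 2 == 1) && (v3 w == 0)) ||
      ((cod w == 951 || cod w == 495) && (v3 w == 1))) = true := by decide +kernel
  intro w hw
  rw [List.all_eq_true] at h
  have h1 := h w hw
  rw [Bool.or_eq_true, Bool.and_eq_true, Bool.and_eq_true, Bool.or_eq_true, List.any_eq_true] at h1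
  rcases h1 with ⟨⟨u, hu, h2⟩, h3⟩ | ⟨h2, h3⟩
  · exact Or.inl ⟨⟨u, hu, by simpa using h2⟩, by simpa using h3⟩
  · refine Or.inr ⟨?_, by simpa using h3⟩
    have c1 : cod ![Z, X, Z, Y, Z, I] = 951 := by decide +kernel
    have c2 : cod ![Z, Z, Y, Z, X, I] = 495 := by decide +kernel
    rcases h2 with h2 | h2
    · left; exact cod_inj ((beq_iff_eq.1 h2).trans c1.symm)
    · right; exact cod_inj ((beq_iff_eq.1 h2).trans c2.symm)

section

variable {ρ' : Op 6} {χ ψ : (Fin 6 → Fin 2) → ℂ} {G : Finset (Op 6)}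

lemma list_eq (hs : SameData ρ' (vecMulVec ψ (star ψ))) (hn : star ψ ⬝ᵥ ψ = 1)
    (hg : ∀ g ∈ gens, Eig ψ g.1 g.2) {w₀ : W} (h0 : cod w₀ ≠ 0) {ws : List W}
    (hws : IsClass (kn w₀) ws) :
    (ws.map fun w => (ρ' * pauli w).trace).sum = (((ws.map e0).sum : ℤ) : ℂ) := by
  have h1 := class_eq hs w₀ (supp_nonempty h0)
  rw [class_list hws, class_list hws] at h1
  rw [h1]
  have h2 : ∀ l : List W, (l.map fun w => (vecMulVec ψ (star ψ) * pauli w).trace).sum =
      (((l.map e0).sum : ℤ) : ℂ) := by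
    intro l
    induction l with
    | nil => simp
    | cons a t ih =>
      rw [List.map_cons, List.sum_cons, ih, List.map_cons, List.sum_cons, Int.cast_add,
        ev_e0 hn hg]
  exact h2 ws

lemma pz_ev (hs : SameData ρ' (vecMulVec ψ (star ψ))) (hn : star ψ ⬝ᵥ ψ = 1)
    (hg : ∀ g ∈ gens, Eig ψ g.1 g.2) {w : W} (h : pz w = true) : (ρ' * pauli w).trace = 0 := by
  obtain ⟨⟨a, ha, hw⟩, hc, he⟩ := pz_spec h
  have := list_eq hs hn hg hc (pure_class ha hw)
  simpa [he] using this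

lemma not_bad (hχ : StabW ρ' χ G) (hs : SameData ρ' (vecMulVec ψ (star ψ)))
    (hn : star ψ ⬝ᵥ ψ = 1) (hg : ∀ g ∈ gens, Eig ψ g.1 g.2) {u v : W} {b b' : Bool}
    (hu : Eig χ u b) (hv : Eig χ v b') : bad u v = false := by
  obtain ⟨h1, h2⟩ := eig_mul (ne_zero_of_norm hχ.norm) hu hv
  rw [pW_eq] at h1
  by_contra hb
  rw [Bool.not_eq_false] at hb
  unfold bad at hb
  rw [Bool.or_eq_true] at hb
  rcases hb with hb | hb
  · rw [beq_iff_eq] at hb; omega
  · have h3 := pz_ev hs hn hg hb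
    rw [hχ.rho, ev_eig hχ.norm h2] at h3
    split_ifs at h3 <;> norm_num at h3

lemma face (hχ : StabW ρ' χ G) (hs : SameData ρ' (vecMulVec ψ (star ψ)))
    (hn : star ψ ⬝ᵥ ψ = 1) (hg : ∀ g ∈ gens, Eig ψ g.1 g.2) (f : ℕ) (hf : f < 8) :
    ∃ t ∈ PL, Eig χ (fw f t) (fs f) := by
  have h1 := list_eq hs hn hg (face_supp f hf) (face_class f hf)
  rw [← class_list (face_class f hf), face_sum f hf] at h1
  have h2 : ∑ w ∈ univ.filter (fun w : W => kn w = kn (fw f (X, Y, Z))), (ρ' * pauli w).trace ≠ 0 := by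
    rw [h1]
    split_ifs <;> norm_num
  obtain ⟨w, hw, hne⟩ := Finset.exists_ne_zero_of_sum_ne_zero h2
  have hmem : ∀ w, w ∈ univ.filter (fun w : W => kn w = kn (fw f (X, Y, Z))) →
      ∃ t ∈ PL, w = fw f t := by
    intro w hw
    have := ((face_class f hf).mem w).1 (Finset.mem_filter.1 hw).2
    obtain ⟨t, ht, he⟩ := List.mem_map.1 this
    exact ⟨t, ht, he.symm⟩
  obtain ⟨t, ht, rfl⟩ := hmem w hw
  obtain ⟨b, hb⟩ := (hχ.ev _).resolve_left hne
  have h3 : ∑ w ∈ univ.filter (fun w : W => kn w = kn (fw f (X, Y, Z))), (ρ' * pauli w).trace =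
      (ρ' * pauli (fw f t)).trace := by
    refine Finset.sum_eq_single (fw f t) ?_ (fun h => absurd hw h)
    intro w' hw' hne'
    obtain ⟨t', ht', rfl⟩ := hmem w' hw'
    rcases hχ.ev (fw f t') with h | ⟨b', hb'⟩
    · exact h
    · exfalso
      have h4 := not_bad hχ hs hn hg hb hb'
      rw [face_bad f hf t ht t' ht' (by rintro rfl; exact hne' rfl)] at h4
      exact Bool.noConfusion h4
  rw [h3, hχ.rho, ev_eig hχ.norm hb] at h1
  refine ⟨t, ht, ?_⟩
  have h5 : b = fs f := by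
    revert h1
    cases b <;> cases fs f <;> norm_num
  rwa [← h5]

lemma kill_false (hχ : StabW ρ' χ G) (hs : SameData ρ' (vecMulVec ψ (star ψ)))
    (hn : star ψ ⬝ᵥ ψ = 1) (hg : ∀ g ∈ gens, Eig ψ g.1 g.2) {ws us : List W} {w₀ : W}
    (h0 : cod w₀ ≠ 0) (hws : IsClass (kn w₀) ws) (hsum : (ws.map e0).sum = 1)
    (hus : ∀ u ∈ us, ∃ b, Eig χ u b) (hk : kill ws us = true) : False := by
  have h1 := list_eq hs hn hg h0 hws
  have h2 : ∀ w ∈ ws, (ρ' * pauli w).trace = 0 := by
    intro w hw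
    unfold kill at hk
    rw [List.all_eq_true] at hk
    have h3 := hk w hw
    rw [List.any_eq_true] at h3
    obtain ⟨u, hu, h4⟩ := h3
    obtain ⟨b, hb⟩ := hus u hu
    rw [hχ.rho]
    apply ev_anti hb
    rw [pW_eq]
    simpa using h4
  rw [List.map_congr_left h2, hsum] at h1
  simp at h1

/-- the stabilizer state is determined by its data among stabilizer states -/
theorem unique_gens (hχ : StabW ρ' χ G) (hs : SameData ρ' (vecMulVec ψ (star ψ)))
    (hn : star ψ ⬝ᵥ ψ = 1) (hg : ∀ g ∈ gens, Eig ψ g.1 g.2) : ∀ g ∈ gens, Eig χ g.1 g.2 := by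
  obtain ⟨t0, m0, k0⟩ := face hχ hs hn hg 0 (by norm_num)
  obtain ⟨t1, m1, k1⟩ := face hχ hs hn hg 1 (by norm_num)
  obtain ⟨t2, m2, k2⟩ := face hχ hs hn hg 2 (by norm_num)
  obtain ⟨t3, m3, k3⟩ := face hχ hs hn hg 3 (by norm_num)
  obtain ⟨t4, m4, k4⟩ := face hχ hs hn hg 4 (by norm_num)
  obtain ⟨t5, m5, k5⟩ := face hχ hs hn hg 5 (by norm_num)
  obtain ⟨t6, m6, k6⟩ := face hχ hs hn hg 6 (by norm_num)
  obtain ⟨t7, m7, k7⟩ := face hχ hs hn hg 7 (by norm_num)
  have nb : ∀ {u v : W} {b b' : Bool}, Eig χ u b → Eig χ v b' → bad u v = false :=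
    fun hu hv => not_bad hχ hs hn hg hu hv
  have e := elim_true
  unfold elim at e
  replace e := List.all_eq_true.1 e t0 m0
  replace e := List.all_eq_true.1 e t1 m1
  simp only [nb k0 k1, Bool.false_or] at e
  replace e := List.all_eq_true.1 e t2 m2
  simp only [nb k0 k2, nb k1 k2, Bool.false_or] at e
  replace e := List.all_eq_true.1 e t3 m3
  simp only [nb k0 k3, nb k1 k3, nb k2 k3, Bool.false_or] at e
  replace e := List.all_eq_true.1 e t4 m4
  simp only [nb k0 k4, nb k1 k4, nb k2 k4, nb k3 k4, Bool.false_or] at e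
  replace e := List.all_eq_true.1 e t5 m5
  simp only [nb k0 k5, nb k1 k5, nb k2 k5, nb k3 k5, nb k4 k5, Bool.false_or] at e
  replace e := List.all_eq_true.1 e t6 m6
  simp only [nb k0 k6, nb k1 k6, nb k2 k6, nb k3 k6, nb k4 k6, nb k5 k6, Bool.false_or] at e
  replace e := List.all_eq_true.1 e t7 m7
  simp only [nb k0 k7, nb k1 k7, nb k2 k7, nb k3 k7, nb k4 k7, nb k5 k7, nb k6 k7, Bool.false_or] at e

  have hus : ∀ u ∈ [fw 0 t0, fw 1 t1, fw 2 t2, fw 3 t3, fw 4 t4, fw 5 t5, fw 6 t6, fw 7 t7],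
      ∃ b, Eig χ u b := by
    intro u hu
    simp only [List.mem_cons, List.not_mem_nil, or_false] at hu
    rcases hu with rfl | rfl | rfl | rfl | rfl | rfl | rfl | rfl
    · exact ⟨_, k0⟩
    · exact ⟨_, k1⟩
    · exact ⟨_, k2⟩
    · exact ⟨_, k3⟩
    · exact ⟨_, k4⟩
    · exact ⟨_, k5⟩
    · exact ⟨_, k6⟩
    · exact ⟨_, k7⟩
  unfold concl at e
  rw [Bool.or_eq_true, Bool.or_eq_true, Bool.or_eq_true] at e
  rcases e with ((e | e) | e) | e
  · simp only [Bool.and_eq_true] at e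
    obtain ⟨⟨⟨⟨⟨e0', e1⟩, e2⟩, e5⟩, e6⟩, e7⟩ := e
    rw [eqT_spec e0'] at k0
    rw [eqT_spec e1] at k1
    rw [eqT_spec e2] at k2
    rw [eqT_spec e5] at k5
    rw [eqT_spec e6] at k6
    rw [eqT_spec e7] at k7
    intro g hgm
    simp only [gens, List.mem_cons, List.not_mem_nil, or_false] at hgm
    rcases hgm with rfl | rfl | rfl | rfl | rfl | rfl
    · exact k0
    · exact k1
    · exact k2
    · exact k5
    · exact k6
    · exact k7
  · exfalso
    simp only [Bool.and_eq_true] at e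
    obtain ⟨⟨⟨⟨⟨⟨⟨e0', e1⟩, e2⟩, e3⟩, e4⟩, e5⟩, e6⟩, e7⟩ := e
    rw [eqT_spec e0'] at k0
    rw [eqT_spec e1] at k1
    rw [eqT_spec e2] at k2
    rw [eqT_spec e3] at k3
    rw [eqT_spec e4] at k4
    rw [eqT_spec e5] at k5
    rw [eqT_spec e6] at k6
    rw [eqT_spec e7] at k7
    have hus : ∀ u ∈ altF, ∃ b, Eig χ u b := by
      intro u hu
      simp only [altF, List.mem_cons, List.not_mem_nil, or_false] at hu
      rcases hu with rfl | rfl | rfl | rfl | rfl | rfl | rfl | rfl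
      · exact ⟨_, k0⟩
      · exact ⟨_, k1⟩
      · exact ⟨_, k2⟩
      · exact ⟨_, k3⟩
      · exact ⟨_, k4⟩
      · exact ⟨_, k5⟩
      · exact ⟨_, k6⟩
      · exact ⟨_, k7⟩
    have h0 := ne_zero_of_norm hχ.norm
    have q1 : Eig χ ![Z, X, Z, Y, Z, I] false := by
      have h1 := (eig_mul h0 (eig_mul h0 k0 k1).2 k2).2
      have h2 : mW (mW (fw 0 (Z, Y, X)) (fw 1 (X, Z, Y))) (fw 2 (X, Z, Y)) =
          ![Z, X, Z, Y, Z, I] := by decide +kernel
      rw [h2, pW_eq, pW_eq] at h1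
      exact h1
    have q2 : Eig χ ![Z, Z, Y, Z, X, I] false := by
      have h1 := (eig_mul h0 (eig_mul h0 k1 k2).2 k3).2
      have h2 : mW (mW (fw 1 (X, Z, Y)) (fw 2 (X, Z, Y))) (fw 3 (Z, Y, X)) =
          ![Z, Z, Y, Z, X, I] := by decide +kernel
      rw [h2, pW_eq, pW_eq] at h1
      exact h1
    have h1 := list_eq hs hn hg (w₀ := ![X, Y, Z, Z, Z, I]) (by decide +kernel) C3_class
    have h2 : ∀ w ∈ C3, (ρ' * pauli w).trace = ((v3 w : ℤ) : ℂ) := by
      intro w hw
      rw [hχ.rho]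
      rcases alt_check w hw with ⟨⟨u, hu, h3⟩, h4⟩ | ⟨h3 | h3, h4⟩
      · obtain ⟨b, hb⟩ := hus u hu
        rw [ev_anti hb (by rw [pW_eq]; exact h3), h4]
        simp
      · rw [h4, h3, ev_eig hχ.norm q1]; simp
      · rw [h4, h3, ev_eig hχ.norm q2]; simp
    rw [List.map_congr_left h2] at h1
    have h3 : ∀ l : List W, (l.map fun w => ((v3 w : ℤ) : ℂ)).sum =
        (((l.map v3).sum : ℤ) : ℂ) := by
      intro l
      induction l with
      | nil => simp
      | cons a t ih =>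
        rw [List.map_cons, List.sum_cons, ih, List.map_cons, List.sum_cons, Int.cast_add]
    have h4 : (C3.map v3).sum = 2 := by decide +kernel
    have h5 : (C3.map e0).sum = -2 := by decide +kernel
    rw [h3, h4, h5] at h1
    norm_num at h1
  · exfalso
    exact kill_false hχ hs hn hg (w₀ := ![X, X, Y, Y, I, I]) (by decide +kernel) C1_class
      (by decide +kernel) hus e
  · exfalso
    exact kill_false hχ hs hn hg (w₀ := ![Y, Y, Z, I, Z, I]) (by decide +kernel) C2_class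
      (by decide +kernel) hus e

theorem unique_state (hψ : StabW (vecMulVec ψ (star ψ)) ψ G0) (hg : ∀ g ∈ gens, Eig ψ g.1 g.2)
    (hχ : StabW ρ' χ G) (hs : SameData ρ' (vecMulVec ψ (star ψ))) :
    ρ' = vecMulVec ψ (star ψ) := by
  have h1 := unique_gens hχ hs hψ.norm hg
  rw [hχ.rho]
  refine hψ.unique hχ.norm fun g hgm => ?_
  obtain ⟨w, hw, rfl⟩ := Finset.mem_image.1 hgm
  have hw1 : e0 w ≠ 0 := (Finset.mem_filter.1 hw).2
  obtain ⟨b, hb, hb2⟩ := (e0_spec (ne_zero_of_norm hχ.norm) h1 w).resolve_left fun h => hw1 h.1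
  rw [Matrix.smul_mulVec, hb, hb2, smul_smul]
  cases b <;> simp

end

end Q265.UC
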